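import Pool.Agent.Helper97.Frog.Choice

open MeasureTheory ProbabilityTheory Set Filter
open scoped ENNReal NNReal Topology

namespace Pool.Agent.Helper97.Frog

/-! ### Real-valued data on the vertices -/

lemma sub_nil_apply (v : Vertex) (ξ : Vertex → ℕ) : sub v ξ [] = ξ v := by
  simp [sub]

lemma sh_sub (v : Vertex) (i : ℕ) (ξ : Vertex → ℕ) : sh i (sub v ξ) = sub (v ++ [i]) ξ := by
  funext w
  simp [sh, sub]

lemma sub_nil (ξ : Vertex → ℕ) : sub [] ξ = ξ := by
  funext w; simp [sub]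

/-- The ratio of the superharmonic function along an edge. -/
noncomputable def rr (ξ : Vertex → ℕ) (v : Vertex) : ℝ := 1 / √(1 + D (sub v ξ))

/-- The superharmonic function. -/
noncomputable def HH (ξ : Vertex → ℕ) (v : Vertex) : ℝ :=
  ∏ k ∈ Finset.range v.length, rr ξ (v.take (k + 1))

lemma rr_pos (ξ : Vertex → ℕ) (v : Vertex) : 0 < rr ξ v := by
  unfold rr
  have := D_nonneg (sub v ξ)
  positivity

lemma rr_le (ξ : Vertex → ℕ) (v : Vertex) : rr ξ v ≤ 1 - G (sub v ξ) / 2 := by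
  have h0 := D_nonneg (sub v ξ)
  rw [G_eq, gg_eq h0, rr]
  set s := √(1 + D (sub v ξ)) with hs
  have hs2 : s ^ 2 = 1 + D (sub v ξ) := Real.sq_sqrt (by linarith)
  have hs0 : 0 < s := Real.sqrt_pos.2 (by linarith)
  rw [← hs2]
  have h1 : 1 / s ^ 2 = (1 / s) ^ 2 := by rw [one_div_pow]
  rw [h1]
  nlinarith [sq_nonneg (1 / s - 1)]

lemma rr_le_one (ξ : Vertex → ℕ) (v : Vertex) : rr ξ v ≤ 1 := by
  have := rr_le ξ v
  have := G_nonneg (sub v ξ)
  linarith

lemma HH_pos (ξ : Vertex → ℕ) (v : Vertex) : 0 < HH ξ v :=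
  Finset.prod_pos fun _ _ => rr_pos ξ _

lemma HH_nil (ξ : Vertex → ℕ) : HH ξ [] = 1 := by simp [HH]

lemma HH_append (ξ : Vertex → ℕ) (v : Vertex) (i : ℕ) :
    HH ξ (v ++ [i]) = HH ξ v * rr ξ (v ++ [i]) := by
  unfold HH
  rw [List.length_append, List.length_singleton, Finset.prod_range_succ]
  congr 1
  · refine Finset.prod_congr rfl fun k hk => ?_
    rw [Finset.mem_range] at hk
    rw [List.take_append_of_le_length (by omega)]
  · rw [List.take_of_length_le (by simp)]

lemma HH_parent (ξ : Vertex → ℕ) {v : Vertex} (hv : v ≠ []) :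
    HH ξ v.dropLast = HH ξ v * √(1 + D (sub v ξ)) := by
  have h1 : v = v.dropLast ++ [v.getLast hv] := (List.dropLast_append_getLast hv).symm
  have h2 : HH ξ v = HH ξ v.dropLast * rr ξ v := by
    conv_lhs => rw [h1]
    rw [HH_append, ← h1]
  rw [h2, rr, mul_assoc, one_div_mul_cancel, mul_one]
  have h0 := D_nonneg (sub v ξ)
  exact (Real.sqrt_pos.2 (by linarith)).ne'

lemma sum_G (ξ : Vertex → ℕ) (v : Vertex) :
    ∑ i ∈ Finset.range (ξ v), G (sub (v ++ [i]) ξ) = D (sub v ξ) := by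
  rw [D, sub_nil_apply]
  exact Finset.sum_congr rfl fun i _ => by rw [sh_sub]

lemma sum_rr_le (ξ : Vertex → ℕ) (v : Vertex) :
    ∑ i ∈ Finset.range (ξ v), rr ξ (v ++ [i]) ≤ ξ v - D (sub v ξ) / 2 := by
  calc ∑ i ∈ Finset.range (ξ v), rr ξ (v ++ [i])
      ≤ ∑ i ∈ Finset.range (ξ v), (1 - G (sub (v ++ [i]) ξ) / 2) :=
        Finset.sum_le_sum fun i _ => rr_le ξ _
    _ = ξ v - D (sub v ξ) / 2 := by
        rw [Finset.sum_sub_distrib, ← Finset.sum_div, sum_G]
        simp

/-- The sum over the neighbours of a vertex which is not the root. -/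
lemma sum_nbrs {ξ : Vertex → ℕ} {v : Vertex} (hv : v ≠ []) (g : Vertex → ℝ≥0∞) :
    ∑ y ∈ nbrs ξ v, g y = ∑ i ∈ Finset.range (ξ v), g (v ++ [i]) + g v.dropLast := by
  classical
  unfold nbrs
  rw [if_neg hv, Finset.sum_union, Finset.sum_singleton, Finset.sum_image]
  · intro i _ j _ h
    simpa using h
  · rw [Finset.disjoint_singleton_right, Finset.mem_image]
    rintro ⟨i, _, h⟩
    have := congrArg List.length h
    simp at this
    omega

lemma sum_nbrs_nil {ξ : Vertex → ℕ} (g : Vertex → ℝ≥0∞) :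
    ∑ y ∈ nbrs ξ [], g y = ∑ i ∈ Finset.range (ξ []), g [i] := by
  classical
  unfold nbrs
  rw [if_pos rfl, Finset.union_empty, Finset.sum_image]
  · rfl
  · intro i _ j _ h
    simpa using h

lemma card_nbrs {ξ : Vertex → ℕ} {v : Vertex} (hv : v ≠ []) :
    ((nbrs ξ v).card : ℝ≥0∞) = ξ v + 1 := by
  have h := sum_nbrs (ξ := ξ) hv (fun _ => 1)
  simpa using h

lemma card_nbrs_nil {ξ : Vertex → ℕ} :
    ((nbrs ξ []).card : ℝ≥0∞) = ξ [] := by
  have h := sum_nbrs_nil (ξ := ξ) (fun _ => 1)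
  simpa using h

/-- The deterministic statement. -/
theorem transient_of_costs {lam : ℝ} (hlam : 0 ≤ lam) {ξ : Vertex → ℕ} {Φ : Vertex → ℝ}
    (hΦ0 : ∀ v, 0 ≤ Φ v)
    (hΦ : ∀ v, ∑ i ∈ Finset.range (ξ v), (lam + Φ (v ++ [i])) ≤ Φ v + psi (D (sub v ξ)))
    (hD : 0 < D ξ) : Transient (Real.toNNReal lam) ξ := by
  classical
  have hk0 : ξ [] ≠ 0 := by
    intro h
    unfold D at hD
    rw [h] at hD
    simp at hD
  have hkpos : (0 : ℝ) < ξ [] := by
    have := Nat.pos_of_ne_zero hk0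
    exact_mod_cast this
  have hne : ∀ v, InTree ξ v → (nbrs ξ v).Nonempty := by
    intro v _
    rw [← Finset.card_ne_zero]
    by_cases hv : v = []
    · have h1 : ((nbrs ξ v).card : ℝ≥0∞) = ξ [] := by rw [hv]; exact card_nbrs_nil
      have h2 : (nbrs ξ v).card = ξ [] := by exact_mod_cast h1
      rw [h2]; exact hk0
    · have h1 := card_nbrs (ξ := ξ) hv
      have h2 : (nbrs ξ v).card = ξ v + 1 := by exact_mod_cast h1
      omega
  -- the real data
  set C : Vertex → ℝ := fun y => HH ξ y * (lam + Φ y) with hC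
  have hC0 : ∀ y, 0 ≤ C y := fun y => mul_nonneg (HH_pos ξ y).le (add_nonneg hlam (hΦ0 y))
  set ψ : Vertex → ℝ := fun x => psi (D (sub x ξ)) with hψ
  have hψ0 : ∀ x, 0 ≤ ψ x := fun x => psi_nonneg (D_nonneg _)
  set θ : Vertex → ℝ := fun x => Φ x / (Φ x + ψ x) with hθ
  have hθmul : ∀ x, θ x * (Φ x + ψ x) = Φ x := by
    intro x
    by_cases h : Φ x + ψ x = 0
    · have h1 : Φ x = 0 := le_antisymm (by linarith [hψ0 x]) (hΦ0 x)
      simp [hθ, h1]
    · simp only [hθ]; rw [div_mul_cancel₀ _ h]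
  have hθ0 : ∀ x, 0 ≤ θ x := fun x => div_nonneg (hΦ0 x) (add_nonneg (hΦ0 x) (hψ0 x))
  have hθ1 : ∀ x, θ x ≤ 1 := fun x => div_le_one_of_le₀ (by linarith [hψ0 x])
    (add_nonneg (hΦ0 x) (hψ0 x))
  have hsumC : ∀ x, ∑ i ∈ Finset.range (ξ x), C (x ++ [i]) ≤ HH ξ x * (Φ x + ψ x) := by
    intro x
    calc ∑ i ∈ Finset.range (ξ x), C (x ++ [i])
        ≤ ∑ i ∈ Finset.range (ξ x), HH ξ x * (lam + Φ (x ++ [i])) := by
          refine Finset.sum_le_sum fun i _ => ?_
          simp only [hC, HH_append]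
          have h1 : HH ξ x * rr ξ (x ++ [i]) ≤ HH ξ x := by
            have := mul_le_mul_of_nonneg_left (rr_le_one ξ (x ++ [i])) (HH_pos ξ x).le
            linarith
          exact mul_le_mul_of_nonneg_right h1 (add_nonneg hlam (hΦ0 _))
      _ = HH ξ x * ∑ i ∈ Finset.range (ξ x), (lam + Φ (x ++ [i])) := by rw [Finset.mul_sum]
      _ ≤ HH ξ x * (Φ x + ψ x) := mul_le_mul_of_nonneg_left (hΦ x) (HH_pos ξ x).le
  set c : Vertex → ℝ := fun y => if y.dropLast = [] then 0 else (1 - θ y.dropLast) * C y with hc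
  set f : Vertex → ℝ := fun y => if y.dropLast = [] then C y else θ y.dropLast * C y with hf
  set F : Vertex → ℝ := fun x => if x = [] then ∑ i ∈ Finset.range (ξ []), C [i]
    else HH ξ x * Φ x with hF
  have hc0 : ∀ y, 0 ≤ c y := by
    intro y
    simp only [hc]
    split_ifs
    · exact le_rfl
    · exact mul_nonneg (by linarith [hθ1 y.dropLast]) (hC0 y)
  have hf0 : ∀ y, 0 ≤ f y := by
    intro y
    simp only [hf]
    split_ifs
    · exact hC0 y
    · exact mul_nonneg (hθ0 _) (hC0 y)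
  have hF0 : ∀ y, 0 ≤ F y := by
    intro y
    simp only [hF]
    split_ifs
    · exact Finset.sum_nonneg fun i _ => hC0 _
    · exact mul_nonneg (HH_pos ξ y).le (hΦ0 y)
  set s0 : ℝ := D ξ / (2 * ξ []) with hs0
  have hs0pos : 0 < s0 := by positivity
  have hs0k : (ξ [] : ℝ) * s0 = D ξ / 2 := by
    simp only [hs0]
    field_simp
  -- sum over the children in the reals
  have hchild : ∀ x, x ≠ [] → ∑ i ∈ Finset.range (ξ x), c (x ++ [i]) ≤ HH ξ x * ψ x := by
    intro x hx
    have h1 : ∀ i, c (x ++ [i]) = (1 - θ x) * C (x ++ [i]) := by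
      intro i
      simp only [hc, List.dropLast_concat, if_neg hx]
    simp_rw [h1]
    rw [← Finset.mul_sum]
    calc (1 - θ x) * ∑ i ∈ Finset.range (ξ x), C (x ++ [i])
        ≤ (1 - θ x) * (HH ξ x * (Φ x + ψ x)) :=
          mul_le_mul_of_nonneg_left (hsumC x) (by linarith [hθ1 x])
      _ = HH ξ x * ((Φ x + ψ x) - θ x * (Φ x + ψ x)) := by ring
      _ = HH ξ x * ψ x := by rw [hθmul]; ring
  have hbound := quenched_bound (Real.toNNReal lam) hne (c := fun y => ENNReal.ofReal (c y))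
    (f := fun y => ENNReal.ofReal (f y)) (F := fun y => ENNReal.ofReal (F y))
    (h := fun y => ENNReal.ofReal (HH ξ y)) (s0 := ENNReal.ofReal s0)
    (fun _ => ENNReal.ofReal_ne_top) (fun _ => ENNReal.ofReal_ne_top) ?_ ?_ ?_
  · exact transient_of_bound (Real.toNNReal lam) hne (s0 := ENNReal.ofReal s0)
      (K := ENNReal.ofReal (HH ξ []) + ENNReal.ofReal (F []))
      (ENNReal.ofReal_pos.2 hs0pos).ne' (ENNReal.add_ne_top.2
        ⟨ENNReal.ofReal_ne_top, ENNReal.ofReal_ne_top⟩) hbound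
  · -- one step
    intro x _
    by_cases hx : x = []
    · subst hx
      rw [sum_nbrs_nil, card_nbrs_nil]
      have h1 : ∀ i, jumpCost (fun y => ENNReal.ofReal (c y)) (ENNReal.ofReal s0) [] [i] +
          ENNReal.ofReal (HH ξ [i]) = ENNReal.ofReal (s0 + rr ξ [i]) := by
        intro i
        have h2 : c [i] = 0 := by simp [hc]
        have h3 : HH ξ [i] = rr ξ [i] := by
          have := HH_append ξ [] i
          rw [HH_nil, one_mul] at this
          exact this
        unfold jumpCost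
        rw [h3]
        simp only [h2, if_true, ENNReal.ofReal_zero, ite_self, add_zero]
        rw [ENNReal.ofReal_add hs0pos.le (rr_pos ξ [i]).le]
      simp_rw [h1]
      rw [← ENNReal.ofReal_sum_of_nonneg fun i _ => add_nonneg hs0pos.le (rr_pos ξ [i]).le,
        HH_nil, ENNReal.ofReal_one, mul_one, ← ENNReal.ofReal_natCast]
      apply ENNReal.ofReal_le_ofReal
      rw [Finset.sum_add_distrib, Finset.sum_const, Finset.card_range, nsmul_eq_mul, hs0k]
      have h4 := sum_rr_le ξ []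
      rw [sub_nil] at h4
      simp only [List.nil_append] at h4
      linarith
    · rw [sum_nbrs hx, card_nbrs hx]
      have h1 : ∀ i, jumpCost (fun y => ENNReal.ofReal (c y)) (ENNReal.ofReal s0) x (x ++ [i]) +
          ENNReal.ofReal (HH ξ (x ++ [i])) =
          ENNReal.ofReal (c (x ++ [i]) + HH ξ x * rr ξ (x ++ [i])) := by
        intro i
        unfold jumpCost
        rw [if_neg hx, if_pos ⟨by simp, by simp⟩, zero_add, HH_append,
          ENNReal.ofReal_add (hc0 _) (mul_nonneg (HH_pos ξ x).le (rr_pos ξ _).le)]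
      have h2 : jumpCost (fun y => ENNReal.ofReal (c y)) (ENNReal.ofReal s0) x x.dropLast +
          ENNReal.ofReal (HH ξ x.dropLast) =
          ENNReal.ofReal (HH ξ x * √(1 + D (sub x ξ))) := by
        unfold jumpCost
        have h3 : ¬ (x.dropLast ≠ [] ∧ x.dropLast.dropLast = x) := by
          rintro ⟨_, h4⟩
          have h5 := congrArg List.length h4
          have h6 : 0 < x.length := List.length_pos_iff.2 hx
          simp only [List.length_dropLast] at h5
          omega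
        rw [if_neg hx, if_neg h3, zero_add, zero_add, HH_parent ξ hx]
      simp_rw [h1]
      rw [h2, ← ENNReal.ofReal_sum_of_nonneg fun i _ => add_nonneg (hc0 _)
          (mul_nonneg (HH_pos ξ x).le (rr_pos ξ _).le),
        ← ENNReal.ofReal_add (Finset.sum_nonneg fun i _ => add_nonneg (hc0 _)
          (mul_nonneg (HH_pos ξ x).le (rr_pos ξ _).le))
          (mul_nonneg (HH_pos ξ x).le (Real.sqrt_nonneg _))]
      have h5 : ((ξ x : ℝ≥0∞) + 1) * ENNReal.ofReal (HH ξ x) =
          ENNReal.ofReal (((ξ x : ℝ) + 1) * HH ξ x) := by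
        rw [ENNReal.ofReal_mul (by positivity), ENNReal.ofReal_add (by positivity) zero_le_one,
          ENNReal.ofReal_natCast, ENNReal.ofReal_one]
      rw [h5]
      apply ENNReal.ofReal_le_ofReal
      rw [Finset.sum_add_distrib, ← Finset.mul_sum]
      have h6 := hchild x hx
      have h7 := sum_rr_le ξ x
      have h8 := mul_le_mul_of_nonneg_left h7 (HH_pos ξ x).le
      have h9 : ψ x = 1 + D (sub x ξ) / 2 - √(1 + D (sub x ξ)) := rfl
      rw [h9] at h6
      linarith
  · -- costs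
    intro z _ hz
    show (Real.toNNReal lam : ℝ≥0∞) * ENNReal.ofReal (HH ξ z) + ENNReal.ofReal (F z) ≤
      ENNReal.ofReal (c z) + ENNReal.ofReal (f z)
    have h1 : (Real.toNNReal lam : ℝ≥0∞) = ENNReal.ofReal lam := rfl
    rw [h1, ← ENNReal.ofReal_mul hlam, ← ENNReal.ofReal_add (mul_nonneg hlam (HH_pos ξ z).le)
      (hF0 z), ← ENNReal.ofReal_add (hc0 z) (hf0 z)]
    apply ENNReal.ofReal_le_ofReal
    simp only [hF, hc, hf, if_neg hz]
    have h2 : lam * HH ξ z + HH ξ z * Φ z = C z := by simp only [hC]; ring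
    rw [h2]
    split_ifs
    · linarith
    · linarith
  · -- flow
    intro x _
    by_cases hx : x = []
    · subst hx
      rw [← ENNReal.ofReal_sum_of_nonneg fun i _ => hf0 _]
      apply ENNReal.ofReal_le_ofReal
      simp only [hF, hf, if_true]
      refine le_of_eq (Finset.sum_congr rfl fun i _ => ?_)
      simp
    · rw [← ENNReal.ofReal_sum_of_nonneg fun i _ => hf0 _]
      apply ENNReal.ofReal_le_ofReal
      have h1 : ∀ i, f (x ++ [i]) = θ x * C (x ++ [i]) := by
        intro i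
        simp only [hf, List.dropLast_concat, if_neg hx]
      simp_rw [h1]
      rw [← Finset.mul_sum]
      simp only [hF, if_neg hx]
      calc θ x * ∑ i ∈ Finset.range (ξ x), C (x ++ [i])
          ≤ θ x * (HH ξ x * (Φ x + ψ x)) := mul_le_mul_of_nonneg_left (hsumC x) (hθ0 x)
        _ = HH ξ x * (θ x * (Φ x + ψ x)) := by ring
        _ = HH ξ x * Φ x := by rw [hθmul]

/-- Trees with positive conductance are infinite. -/
lemma survives_of_G_pos {ξ : Vertex → ℕ} (h : 0 < G ξ) : ξ ∈ Survives := by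
  have h1 : ∀ (n : ℕ) (ζ : Vertex → ℕ), 0 < Gn n ζ → ζ ∈ alive n := by
    intro n
    induction n with
    | zero => intro _ _; trivial
    | succ n ih =>
      intro ζ hζ
      have h2 : 0 < ∑ i ∈ Finset.range (ζ []), Gn n (sh i ζ) := by
        refine lt_of_le_of_ne (Finset.sum_nonneg fun i _ => Gn_nonneg n _) fun h0 => ?_
        have h3 : Gn (n + 1) ζ = 0 := by
          show gg (∑ i ∈ Finset.range (ζ []), Gn n (sh i ζ)) = 0
          rw [← h0]; simp [gg]
        rw [h3] at hζ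
        exact lt_irrefl _ hζ
      obtain ⟨i, hi, hi0⟩ := Finset.exists_ne_zero_of_sum_ne_zero h2.ne'
      exact ⟨i, Finset.mem_range.1 hi, ih _ (lt_of_le_of_ne (Gn_nonneg n _) (Ne.symm hi0))⟩
  rw [survives_eq, mem_iInter]
  intro n
  exact h1 n ξ (h.trans_le (ciInf_le (bddBelow_Gn ξ) n))

/-- A supercritical Galton-Watson tree is infinite with positive probability. -/
theorem survives_pos (p : Measure ℕ) [IsProbabilityMeasure p]
    (hp : 1 < ∫⁻ k, (k : ℝ≥0∞) ∂p) : 0 < galtonWatson p Survives := by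
  have h1 : 0 < galtonWatson p {ξ | G ξ = 0}ᶜ := by
    rw [prob_compl_eq_one_sub measurableSet_G0]
    exact tsub_pos_of_lt (q0_lt_one p hp)
  refine h1.trans_le (measure_mono fun ξ hξ => survives_of_G_pos ?_)
  exact lt_of_le_of_ne (G_nonneg ξ) (Ne.symm hξ)

/-- The main theorem in terms of the unconditioned law. -/
theorem exists_transient (p : Measure ℕ) [IsProbabilityMeasure p]
    (hp : 1 < ∫⁻ k, (k : ℝ≥0∞) ∂p) : ∃ lam : ℝ≥0, 0 < lam ∧
      ∀ᵐ ξ ∂(galtonWatson p), ξ ∈ Survives → ∀ mu ≤ lam, Transient mu ξ := by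
  obtain ⟨lam, hlam, κ, hκ, C, hC, hb⟩ := exists_lam p hp
  refine ⟨Real.toNNReal lam, Real.toNNReal_pos.2 hlam, ?_⟩
  filter_upwards [ae_good p hκ hC hb, ae_survives_G_pos p hp] with ξ h1 h2 hs mu hmu
  have hmu' : (mu : ℝ) ≤ lam := by
    have : (mu : ℝ) ≤ (Real.toNNReal lam : ℝ≥0) := by exact_mod_cast hmu
    rwa [Real.coe_toNNReal _ hlam.le] at this
  have hG := h2 hs
  have hD : 0 < D ξ := by
    refine lt_of_le_of_ne (D_nonneg ξ) fun h => ?_
    rw [G_eq, ← h] at hG
    simp [gg] at hG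
  have hT := transient_of_costs (lam := (mu : ℝ)) mu.coe_nonneg
    (Φ := fun v => Phi' lam (sub v ξ)) (fun v => Phi'_nonneg _ _) (fun v => ?_) hD
  · rwa [Real.toNNReal_coe] at hT
  · have h3 := Phi'_ge (lam := lam) (h1 v) (fun i => by rw [sh_sub]; exact h1 _)
    rw [sub_nil_apply] at h3
    simp_rw [sh_sub] at h3
    have h4 : ∑ i ∈ Finset.range (ξ v), ((mu : ℝ) + Phi' lam (sub (v ++ [i]) ξ)) ≤
        ∑ i ∈ Finset.range (ξ v), (lam + Phi' lam (sub (v ++ [i]) ξ)) :=
      Finset.sum_le_sum fun i _ => by linarith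
    linarith

end Pool.Agent.Helper97.Frog
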