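import Pool.Agent.Helper97.Frog.Defs

open MeasureTheory ProbabilityTheory Set
open scoped ENNReal NNReal

namespace Pool.Agent.Helper97.Frog

/-- The subtree of the `i`-th child of the root. -/
def sh (i : ℕ) (ξ : Vertex → ℕ) : Vertex → ℕ := fun v => ξ (i :: v)

/-- The subtree of the vertex `u`. -/
def sub (u : Vertex) (ξ : Vertex → ℕ) : Vertex → ℕ := fun v => ξ (u ++ v)

variable (p : Measure ℕ) [IsProbabilityMeasure p]

instance instIsProbabilityMeasureGW : IsProbabilityMeasure (galtonWatson p) := by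
  unfold galtonWatson; infer_instance

lemma measurable_sh (i : ℕ) : Measurable (sh i) :=
  measurable_pi_iff.2 fun v => measurable_pi_apply (i :: v)

lemma measurable_sub (u : Vertex) : Measurable (sub u) :=
  measurable_pi_iff.2 fun v => measurable_pi_apply (u ++ v)

lemma map_sub (u : Vertex) : (galtonWatson p).map (sub u) = galtonWatson p := by
  unfold galtonWatson
  exact Measure.map_infinitePi_infinitePi_of_inj (P := fun _ : Vertex => p)
    (f := fun v : Vertex => u ++ v) (List.append_right_injective u)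

/-- Put together the root degree and the subtrees of the children. -/
def assemble (q : ℕ × (ℕ → Vertex → ℕ)) : Vertex → ℕ
  | [] => q.1
  | i :: v => q.2 i v

@[simp] lemma assemble_nil (q : ℕ × (ℕ → Vertex → ℕ)) : assemble q [] = q.1 := rfl

@[simp] lemma sh_assemble (q : ℕ × (ℕ → Vertex → ℕ)) (i : ℕ) : sh i (assemble q) = q.2 i := rfl

lemma measurable_assemble : Measurable assemble := by
  rw [measurable_pi_iff]
  intro v
  cases v with
  | nil => exact measurable_fst
  | cons i v =>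
    exact (measurable_pi_apply v).comp ((measurable_pi_apply i).comp measurable_snd)

lemma map_assemble :
    (p.prod (Measure.infinitePi fun _ : ℕ => galtonWatson p)).map assemble = galtonWatson p := by
  classical
  refine Measure.eq_infinitePi (fun _ : Vertex => p) fun s t ht => ?_
  rw [Measure.map_apply measurable_assemble (MeasurableSet.pi s.countable_toSet fun i _ => ht i)]
  -- the vertices of `s` other than the root
  have hinj : Function.Injective fun q : ℕ × Vertex => (q.1 :: q.2 : Vertex) := by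
    rintro ⟨i, v⟩ ⟨j, w⟩ h
    simp only [List.cons.injEq] at h
    exact Prod.ext h.1 h.2
  set s' : Finset (ℕ × Vertex) := s.preimage (fun q : ℕ × Vertex => (q.1 :: q.2 : Vertex))
    hinj.injOn with hs'
  have hset : assemble ⁻¹' (Set.pi s t) =
      (if ([] : Vertex) ∈ s then t [] else univ) ×ˢ
        {ζ : ℕ → Vertex → ℕ | ∀ q ∈ s', ζ q.1 q.2 ∈ t (q.1 :: q.2)} := by
    ext q
    simp only [mem_preimage, Set.mem_pi, Finset.mem_coe, mem_prod, mem_ofPred_eq]
    constructor
    · intro h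
      refine ⟨?_, fun r hr => ?_⟩
      · split_ifs with h0
        · exact h [] h0
        · trivial
      · rw [hs', Finset.mem_preimage] at hr
        exact h _ hr
    · rintro ⟨h1, h2⟩ v hv
      cases v with
      | nil => rw [if_pos hv] at h1; exact h1
      | cons i v => exact h2 (i, v) (by rw [hs', Finset.mem_preimage]; exact hv)
  have hB : (Measure.infinitePi fun _ : ℕ => galtonWatson p)
      {ζ : ℕ → Vertex → ℕ | ∀ q ∈ s', ζ q.1 q.2 ∈ t (q.1 :: q.2)} =
      ∏ q ∈ s', p (t (q.1 :: q.2)) := by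
    have h1 := Measure.infinitePi_map_curry (fun (_ : ℕ) (_ : Vertex) => p)
    unfold galtonWatson
    rw [← h1, MeasurableEquiv.map_apply]
    have h2 : (MeasurableEquiv.curry ℕ Vertex ℕ) ⁻¹'
        {ζ : ℕ → Vertex → ℕ | ∀ q ∈ s', ζ q.1 q.2 ∈ t (q.1 :: q.2)} =
        Set.pi (s' : Set (ℕ × Vertex)) fun q => t (q.1 :: q.2) := by
      ext ζ
      simp only [mem_preimage, mem_ofPred_eq, Set.mem_pi, Finset.mem_coe]
      rfl
    rw [h2, Measure.infinitePi_pi _ fun q _ => ht _]
  rw [hset, Measure.prod_prod, hB]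
  have hprod : ∏ q ∈ s', p (t (q.1 :: q.2)) = ∏ v ∈ s.erase [], p (t v) := by
    refine Finset.prod_bij (fun q _ => q.1 :: q.2) ?_ ?_ ?_ ?_
    · intro q hq
      rw [hs', Finset.mem_preimage] at hq
      exact Finset.mem_erase.2 ⟨by simp, hq⟩
    · intro q _ r _ h
      exact hinj h
    · intro v hv
      obtain ⟨h0, hv⟩ := Finset.mem_erase.1 hv
      cases v with
      | nil => exact absurd rfl h0
      | cons i v => exact ⟨(i, v), by rw [hs', Finset.mem_preimage]; exact hv, rfl⟩
    · intro q _; rfl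
  rw [hprod]
  split_ifs with h0
  · exact Finset.mul_prod_erase s (fun v => p (t v)) h0
  · rw [measure_univ, one_mul, Finset.erase_eq_of_notMem h0]

/-- The branching property. -/
lemma lintegral_branch {F : ℕ → (ℕ → Vertex → ℕ) → ℝ≥0∞} (hF : Measurable (Function.uncurry F)) :
    ∫⁻ ξ, F (ξ []) (fun i => sh i ξ) ∂(galtonWatson p) =
      ∫⁻ k, ∫⁻ ζ, F k ζ ∂(Measure.infinitePi fun _ : ℕ => galtonWatson p) ∂p := by
  have hG : Measurable fun ξ : Vertex → ℕ => F (ξ []) (fun i => sh i ξ) := by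
    have : Measurable fun ξ : Vertex → ℕ => (ξ [], fun i => sh i ξ) :=
      (measurable_pi_apply []).prodMk (measurable_pi_iff.2 fun i => measurable_sh i)
    exact hF.comp this
  conv_lhs => rw [← map_assemble p]
  rw [lintegral_map hG measurable_assemble]
  simp only [assemble_nil, sh_assemble]
  rw [lintegral_prod]
  exact hF.aemeasurable

lemma lintegral_prod_gw {H : ℕ → (Vertex → ℕ) → ℝ≥0∞} (hH : ∀ i, Measurable (H i))
    (s : Finset ℕ) : ∫⁻ ζ, ∏ i ∈ s, H i (ζ i) ∂(Measure.infinitePi fun _ : ℕ => galtonWatson p) =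
      ∏ i ∈ s, ∫⁻ ξ, H i ξ ∂(galtonWatson p) := by
  have hind : iIndepFun (fun i (ζ : ℕ → Vertex → ℕ) => H i (ζ i))
      (Measure.infinitePi fun _ : ℕ => galtonWatson p) := iIndepFun_infinitePi hH
  rw [lintegral_prod_eq_prod_lintegral_of_indepFun s _ hind
    fun i => (hH i).comp (measurable_pi_apply i)]
  refine Finset.prod_congr rfl fun i _ => ?_
  have h3 := Measure.infinitePi_map_eval (fun _ : ℕ => galtonWatson p) i
  conv_rhs => rw [← h3]
  rw [lintegral_map (hH i) (measurable_pi_apply i)]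

/-- The generating function of the offspring distribution. -/
noncomputable def gf (x : ℝ≥0∞) : ℝ≥0∞ := ∫⁻ k, x ^ k ∂p

/-- The derivative of the generating function. -/
noncomputable def gf' (x : ℝ≥0∞) : ℝ≥0∞ := ∫⁻ k, (k : ℝ≥0∞) * x ^ (k - 1) ∂p

/-- Expectation of a product over the children. -/
lemma lintegral_prod_children {z : (Vertex → ℕ) → ℝ≥0∞} (hz : Measurable z) :
    ∫⁻ ξ, ∏ i ∈ Finset.range (ξ []), z (sh i ξ) ∂(galtonWatson p) =
      gf p (∫⁻ ξ, z ξ ∂(galtonWatson p)) := by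
  have hF : Measurable (Function.uncurry fun (k : ℕ) (ζ : ℕ → Vertex → ℕ) =>
      ∏ i ∈ Finset.range k, z (ζ i)) := by
    refine measurable_from_prod_countable_right fun k => ?_
    show Measurable fun ζ : ℕ → Vertex → ℕ => ∏ i ∈ Finset.range k, z (ζ i)
    exact Finset.measurable_prod _ fun i _ => hz.comp (measurable_pi_apply i)
  rw [lintegral_branch p (F := fun k ζ => ∏ i ∈ Finset.range k, z (ζ i)) hF, gf]
  refine lintegral_congr fun k => ?_
  rw [lintegral_prod_gw p (H := fun _ => z) (fun _ => hz)]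
  simp

/-- Expectation of a sum over the children, weighted by a product over the other children. -/
lemma lintegral_sum_children {a z : (Vertex → ℕ) → ℝ≥0∞} (ha : Measurable a) (hz : Measurable z) :
    ∫⁻ ξ, ∑ i ∈ Finset.range (ξ []), a (sh i ξ) * ∏ j ∈ (Finset.range (ξ [])).erase i, z (sh j ξ)
      ∂(galtonWatson p) =
      (∫⁻ ξ, a ξ ∂(galtonWatson p)) * gf' p (∫⁻ ξ, z ξ ∂(galtonWatson p)) := by
  have hm : ∀ k i : ℕ, Measurable fun ζ : ℕ → Vertex → ℕ =>
      a (ζ i) * ∏ j ∈ (Finset.range k).erase i, z (ζ j) := fun k i =>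
    (ha.comp (measurable_pi_apply i)).mul
      (Finset.measurable_prod _ fun j _ => hz.comp (measurable_pi_apply j))
  have hF : Measurable (Function.uncurry fun (k : ℕ) (ζ : ℕ → Vertex → ℕ) =>
      ∑ i ∈ Finset.range k, a (ζ i) * ∏ j ∈ (Finset.range k).erase i, z (ζ j)) := by
    refine measurable_from_prod_countable_right fun k => ?_
    show Measurable fun ζ : ℕ → Vertex → ℕ =>
      ∑ i ∈ Finset.range k, a (ζ i) * ∏ j ∈ (Finset.range k).erase i, z (ζ j)
    exact Finset.measurable_sum _ fun i _ => hm k i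
  rw [lintegral_branch p (F := fun k ζ =>
      ∑ i ∈ Finset.range k, a (ζ i) * ∏ j ∈ (Finset.range k).erase i, z (ζ j)) hF, gf',
    ← lintegral_const_mul _ (measurable_of_countable _)]
  refine lintegral_congr fun k => ?_
  rw [lintegral_finsetSum _ fun i _ => hm k i]
  have h1 : ∀ i ∈ Finset.range k,
      ∫⁻ ζ, a (ζ i) * ∏ j ∈ (Finset.range k).erase i, z (ζ j)
        ∂(Measure.infinitePi fun _ : ℕ => galtonWatson p) =
      (∫⁻ ξ, a ξ ∂(galtonWatson p)) * (∫⁻ ξ, z ξ ∂(galtonWatson p)) ^ (k - 1) := by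
    intro i hi
    set H : ℕ → (Vertex → ℕ) → ℝ≥0∞ := fun j => if j = i then a else z with hH
    have hHm : ∀ j, Measurable (H j) := by
      intro j; simp only [hH]; split_ifs <;> assumption
    have h2 : ∀ ζ : ℕ → Vertex → ℕ, a (ζ i) * ∏ j ∈ (Finset.range k).erase i, z (ζ j) =
        ∏ j ∈ Finset.range k, H j (ζ j) := by
      intro ζ
      rw [← Finset.mul_prod_erase (Finset.range k) (fun j => H j (ζ j)) hi]
      congr 1
      · simp [hH]
      · refine Finset.prod_congr rfl fun j hj => ?_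
        have : j ≠ i := Finset.ne_of_mem_erase hj
        simp [hH, this]
    simp_rw [h2]
    rw [lintegral_prod_gw p hHm, ← Finset.mul_prod_erase (Finset.range k) _ hi]
    congr 1
    · simp [hH]
    · rw [Finset.prod_congr rfl (g := fun _ => ∫⁻ ξ, z ξ ∂(galtonWatson p))]
      · rw [Finset.prod_const, Finset.card_erase_of_mem hi, Finset.card_range]
      · intro j hj
        have : j ≠ i := Finset.ne_of_mem_erase hj
        simp [hH, this]
  rw [Finset.sum_congr rfl h1, Finset.sum_const, Finset.card_range, nsmul_eq_mul]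
  ring

/-! ### Facts on the generating function -/

omit [IsProbabilityMeasure p] in
lemma gf_mono : Monotone (gf p) := fun _ _ h => lintegral_mono fun k => pow_le_pow_left' h k

omit [IsProbabilityMeasure p] in
lemma gf'_mono : Monotone (gf' p) := fun _ _ h =>
  lintegral_mono fun k => mul_le_mul_right (pow_le_pow_left' h (k - 1)) _

lemma gf_le_one {x : ℝ≥0∞} (hx : x ≤ 1) : gf p x ≤ 1 := by
  calc gf p x ≤ ∫⁻ _, 1 ∂p := lintegral_mono fun k => pow_le_one' hx k
    _ = 1 := by simp

lemma pow_add_ge (x d : ℝ≥0∞) (k : ℕ) : (k : ℝ≥0∞) * x ^ (k - 1) * d + x ^ k ≤ (x + d) ^ k := by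
  induction k with
  | zero => simp
  | succ k ih =>
    have h1 : (k : ℝ≥0∞) * x ^ k = (k : ℝ≥0∞) * x ^ (k - 1) * x := by
      rcases k with _ | k
      · simp
      · rw [Nat.add_sub_cancel, pow_succ, mul_assoc]
    calc ((k + 1 : ℕ) : ℝ≥0∞) * x ^ (k + 1 - 1) * d + x ^ (k + 1)
        = (k : ℝ≥0∞) * x ^ k * d + x ^ k * d + x ^ k * x := by
          rw [Nat.add_sub_cancel, pow_succ]; push_cast; ring
      _ = ((k : ℝ≥0∞) * x ^ (k - 1) * d) * x + x ^ k * d + x ^ k * x := by rw [h1]; ring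
      _ ≤ ((k : ℝ≥0∞) * x ^ (k - 1) * d) * x + x ^ k * d + x ^ k * x +
          ((k : ℝ≥0∞) * x ^ (k - 1) * d) * d := le_self_add
      _ = ((k : ℝ≥0∞) * x ^ (k - 1) * d + x ^ k) * (x + d) := by ring
      _ ≤ (x + d) ^ k * (x + d) := mul_le_mul_left ih _
      _ = (x + d) ^ (k + 1) := by rw [pow_succ]

omit [IsProbabilityMeasure p] in
lemma gf_add_ge (x d : ℝ≥0∞) : gf' p x * d + gf p x ≤ gf p (x + d) := by
  unfold gf gf'
  rw [← lintegral_mul_const _ (measurable_of_countable _),
    ← lintegral_add_left (measurable_of_countable _)]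
  exact lintegral_mono fun k => pow_add_ge x d k

lemma exists_gf_lt (hp : 1 < ∫⁻ k, (k : ℝ≥0∞) ∂p) {x : ℝ} (hx : x < 1) :
    ∃ y : ℝ, max x 0 < y ∧ y < 1 ∧ gf p (ENNReal.ofReal y) < ENNReal.ofReal y := by
  -- finitely many terms of the mean suffice
  obtain ⟨K, hK⟩ : ∃ K : ℕ, 1 < ∑ k ∈ Finset.range K, (k : ℝ≥0∞) * p {k} := by
    rw [lintegral_countable', ENNReal.tsum_eq_iSup_nat] at hp
    exact lt_iSup_iff.1 hp
  have hpt : ∀ k, p {k} ≠ ∞ := fun k => measure_ne_top _ _
  set a : ℕ → ℝ := fun k => (p {k}).toReal with ha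
  have ha0 : ∀ k, 0 ≤ a k := fun k => ENNReal.toReal_nonneg
  have hpa : ∀ k, p {k} = ENNReal.ofReal (a k) := fun k => (ENNReal.ofReal_toReal (hpt k)).symm
  have hK' : 1 < ∑ k ∈ Finset.range K, (k : ℝ) * a k := by
    have h1 : ∑ k ∈ Finset.range K, (k : ℝ≥0∞) * p {k} =
        ENNReal.ofReal (∑ k ∈ Finset.range K, (k : ℝ) * a k) := by
      rw [ENNReal.ofReal_sum_of_nonneg fun k _ => mul_nonneg (Nat.cast_nonneg k) (ha0 k)]
      refine Finset.sum_congr rfl fun k _ => ?_
      rw [hpa, ← ENNReal.ofReal_natCast, ← ENNReal.ofReal_mul (Nat.cast_nonneg k)]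
    rw [h1, ← ENNReal.ofReal_one] at hK
    exact (ENNReal.ofReal_lt_ofReal_iff_of_nonneg zero_le_one).1 hK
  set φ : ℝ → ℝ := fun y => ∑ k ∈ Finset.range K, a k * ∑ j ∈ Finset.range k, y ^ j with hφ
  have hφc : Continuous φ := by
    simp only [hφ]; fun_prop
  have hφ1 : 1 < φ 1 := by
    simp only [hφ, one_pow, Finset.sum_const, Finset.card_range, nsmul_eq_mul, mul_one]
    simpa [mul_comm] using hK'
  have hev : ∀ᶠ y in nhdsWithin 1 (Iio (1 : ℝ)), 1 < φ y ∧ max x 0 < y ∧ y < 1 := by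
    have h1 : ∀ᶠ y in nhdsWithin 1 (Iio (1 : ℝ)), 1 < φ y :=
      (hφc.continuousAt.eventually (lt_mem_nhds hφ1)).filter_mono nhdsWithin_le_nhds
    have h2 : ∀ᶠ y in nhdsWithin 1 (Iio (1 : ℝ)), max x 0 < y :=
      (lt_mem_nhds (max_lt hx one_pos)).filter_mono nhdsWithin_le_nhds
    filter_upwards [h1, h2, self_mem_nhdsWithin] with y hy1 hy2 hy3 using ⟨hy1, hy2, hy3⟩
  obtain ⟨y, hy1, hy2, hy3⟩ := hev.exists
  have hy0 : 0 < y := (le_max_right _ _).trans_lt hy2
  refine ⟨y, hy2, hy3, ?_⟩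
  have hkey : gf p (ENNReal.ofReal y) + ENNReal.ofReal ((1 - y) * φ y) ≤ 1 := by
    have h1 : ENNReal.ofReal ((1 - y) * φ y) =
        ∫⁻ k, (if k < K then ENNReal.ofReal (1 - y ^ k) else 0) ∂p := by
      rw [lintegral_countable', tsum_eq_sum (s := Finset.range K)]
      · have h2 : (1 - y) * φ y = ∑ k ∈ Finset.range K, (1 - y ^ k) * a k := by
          simp only [hφ]
          rw [Finset.mul_sum]
          refine Finset.sum_congr rfl fun k _ => ?_
          have := mul_neg_geom_sum y k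
          rw [← this]; ring
        rw [h2, ENNReal.ofReal_sum_of_nonneg fun k _ => mul_nonneg
          (sub_nonneg.2 (pow_le_one₀ hy0.le hy3.le)) (ha0 k)]
        refine Finset.sum_congr rfl fun k hk => ?_
        rw [if_pos (Finset.mem_range.1 hk), hpa,
          ENNReal.ofReal_mul (sub_nonneg.2 (pow_le_one₀ hy0.le hy3.le))]
      · intro k hk
        rw [if_neg (by simpa using hk), zero_mul]
    rw [h1, gf, ← lintegral_add_left (measurable_of_countable _)]
    calc ∫⁻ k, (ENNReal.ofReal y ^ k + if k < K then ENNReal.ofReal (1 - y ^ k) else 0) ∂p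
        ≤ ∫⁻ _, 1 ∂p := by
          refine lintegral_mono fun k => ?_
          rw [← ENNReal.ofReal_pow hy0.le]
          split_ifs
          · rw [← ENNReal.ofReal_add (by positivity) (sub_nonneg.2 (pow_le_one₀ hy0.le hy3.le))]
            simp
          · rw [add_zero, ENNReal.ofReal_le_one]
            exact pow_le_one₀ hy0.le hy3.le
      _ = 1 := by simp
  have hgt : gf p (ENNReal.ofReal y) ≠ ∞ :=
    ne_top_of_le_ne_top ENNReal.one_ne_top (le_self_add.trans hkey)
  have h3 : ENNReal.ofReal (1 - y) < ENNReal.ofReal ((1 - y) * φ y) := by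
    rw [ENNReal.ofReal_lt_ofReal_iff_of_nonneg (by linarith)]
    nlinarith
  by_contra hcon
  rw [not_lt] at hcon
  have h4 : (1 : ℝ≥0∞) < gf p (ENNReal.ofReal y) + ENNReal.ofReal ((1 - y) * φ y) := by
    calc (1 : ℝ≥0∞) = ENNReal.ofReal y + ENNReal.ofReal (1 - y) := by
          rw [← ENNReal.ofReal_add hy0.le (by linarith)]; simp
      _ ≤ gf p (ENNReal.ofReal y) + ENNReal.ofReal (1 - y) := by gcongr
      _ < _ := (ENNReal.add_lt_add_iff_left hgt).2 h3
  exact absurd hkey (not_le.2 h4)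

/-- At a fixed point `x < 1` of the generating function, the derivative is smaller than `1`, even
slightly to the right of `x`. -/
lemma exists_gf'_lt (hp : 1 < ∫⁻ k, (k : ℝ≥0∞) ∂p) {x : ℝ} (hx0 : 0 ≤ x) (hx : x < 1)
    (hfix : gf p (ENNReal.ofReal x) = ENNReal.ofReal x) :
    ∃ x₁ : ℝ, x < x₁ ∧ x₁ < 1 ∧ gf' p (ENNReal.ofReal x₁) < 1 := by
  obtain ⟨y, hy1, hy2, hy3⟩ := exists_gf_lt p hp hx
  have hxy : x < y := (le_max_left _ _).trans_lt hy1
  have hy0 : 0 < y := hx0.trans_lt hxy
  set g : ℝ := (gf p (ENNReal.ofReal y)).toReal with hg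
  have hgt : gf p (ENNReal.ofReal y) ≠ ∞ := ne_top_of_lt hy3
  have hgy : gf p (ENNReal.ofReal y) = ENNReal.ofReal g := (ENNReal.ofReal_toReal hgt).symm
  have hgl : g < y := by
    rw [hgy] at hy3
    exact (ENNReal.ofReal_lt_ofReal_iff hy0).1 hy3
  have hgx : x ≤ g := by
    have h1 := gf_mono p (ENNReal.ofReal_le_ofReal hxy.le)
    rw [hfix, hgy] at h1
    exact (ENNReal.ofReal_le_ofReal_iff ENNReal.toReal_nonneg).1 h1
  -- the intermediate point
  set x₁ : ℝ := x + (y - g) / 2 with hx₁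
  have h1 : x < x₁ := by simp only [hx₁]; linarith
  have h2 : x₁ < y := by simp only [hx₁]; linarith
  refine ⟨x₁, h1, h2.trans hy2, ?_⟩
  have h3 := gf_add_ge p (ENNReal.ofReal x₁) (ENNReal.ofReal (y - x₁))
  rw [← ENNReal.ofReal_add (hx0.trans h1.le) (by linarith), add_sub_cancel, hgy] at h3
  have h4 : ENNReal.ofReal x ≤ gf p (ENNReal.ofReal x₁) := by
    rw [← hfix]; exact gf_mono p (ENNReal.ofReal_le_ofReal h1.le)
  by_contra hcon
  rw [not_lt] at hcon
  have h5 : ENNReal.ofReal (y - x₁) + ENNReal.ofReal x ≤ ENNReal.ofReal g := by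
    refine le_trans ?_ h3
    refine add_le_add ?_ h4
    calc ENNReal.ofReal (y - x₁) = 1 * ENNReal.ofReal (y - x₁) := (one_mul _).symm
      _ ≤ _ := mul_le_mul_left hcon _
  rw [← ENNReal.ofReal_add (by linarith) hx0, ENNReal.ofReal_le_ofReal_iff
    ENNReal.toReal_nonneg] at h5
  simp only [hx₁] at h5
  linarith

end Pool.Agent.Helper97.Frog
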