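import Pool.Agent.Helper97.Frog.Cost

open MeasureTheory ProbabilityTheory Set Filter
open scoped ENNReal NNReal Topology

namespace Pool.Agent.Helper97.Frog

variable (p : Measure ℕ) [IsProbabilityMeasure p]

lemma measurable_exp_psi (κ : ℝ) :
    Measurable fun ξ : Vertex → ℕ => ENNReal.ofReal (Real.exp (-(κ * psi (G ξ)))) :=
  (Real.measurable_exp.comp ((measurable_psi.comp measurable_G).const_mul κ).neg).ennreal_ofReal

lemma tendsto_exp_psi :
    Tendsto (fun n : ℕ => ∫⁻ ξ, ENNReal.ofReal (Real.exp (-((n : ℝ) * psi (G ξ))))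
      ∂(galtonWatson p)) atTop (𝓝 (q0 p)) := by
  have h := tendsto_lintegral_of_dominated_convergence (μ := galtonWatson p)
    (F := fun (n : ℕ) ξ => ENNReal.ofReal (Real.exp (-((n : ℝ) * psi (G ξ)))))
    (f := {ξ | G ξ = 0}.indicator 1) (bound := fun _ => 1)
    (fun n => measurable_exp_psi n) ?_ ?_ ?_
  · rwa [lintegral_indicator_one measurableSet_G0] at h
  · intro n
    refine ae_of_all _ fun ξ => ?_
    rw [← ENNReal.ofReal_one]
    apply ENNReal.ofReal_le_ofReal
    rw [Real.exp_le_one_iff]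
    have := mul_nonneg (Nat.cast_nonneg (α := ℝ) n) (psi_nonneg (G_nonneg ξ))
    linarith
  · simp
  · refine ae_of_all _ fun ξ => ?_
    by_cases h0 : G ξ = 0
    · rw [indicator_of_mem (by exact h0)]
      simp only [h0, psi_zero, mul_zero, neg_zero, Real.exp_zero, ENNReal.ofReal_one]
      exact tendsto_const_nhds
    · rw [indicator_of_notMem (by exact h0)]
      have hpos : 0 < psi (G ξ) := psi_pos (lt_of_le_of_ne (G_nonneg ξ) (Ne.symm h0))
      have h1 : Tendsto (fun n : ℕ => Real.exp (-((n : ℝ) * psi (G ξ)))) atTop (𝓝 0) :=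
        Real.tendsto_exp_neg_atTop_nhds_zero.comp
          (tendsto_natCast_atTop_atTop.atTop_mul_const hpos)
      have h2 := (ENNReal.continuous_ofReal.tendsto 0).comp h1
      rw [ENNReal.ofReal_zero] at h2
      exact h2

lemma exists_kappa {ε : ℝ} (hε : 0 < ε) : ∃ κ : ℝ, 0 < κ ∧
    ∫⁻ ξ, ENNReal.ofReal (Real.exp (-(κ * psi (G ξ)))) ∂(galtonWatson p) ≤
      ENNReal.ofReal ((q0 p).toReal + ε) := by
  have h1 : q0 p < ENNReal.ofReal ((q0 p).toReal + ε) := by
    conv_lhs => rw [← ENNReal.ofReal_toReal (q0_ne_top p)]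
    exact (ENNReal.ofReal_lt_ofReal_iff (by
      have : 0 ≤ (q0 p).toReal := ENNReal.toReal_nonneg
      linarith)).2 (by linarith)
  obtain ⟨n, hn, hn0⟩ := (((tendsto_exp_psi p).eventually (gt_mem_nhds h1)).and
    (eventually_gt_atTop 0)).exists
  exact ⟨n, by exact_mod_cast hn0, le_of_lt hn⟩

/-- The choice of the density of sleeping particles. -/
theorem exists_lam (hp : 1 < ∫⁻ k, (k : ℝ≥0∞) ∂p) : ∃ lam : ℝ, 0 < lam ∧ ∃ κ : ℝ, 0 < κ ∧
    ∃ C : ℝ≥0∞, C ≠ ∞ ∧ ∀ n, ∫⁻ ξ, ENNReal.ofReal (Real.exp (κ * Phi lam n ξ) - 1)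
      ∂(galtonWatson p) ≤ C := by
  obtain ⟨x₁, hx1, hx2, hx3⟩ := exists_right_of_q0 p hp
  set x := (q0 p).toReal with hx
  have hx0 : 0 ≤ x := ENNReal.toReal_nonneg
  set γ := (x₁ - x) / 2 with hγ
  have hγ0 : 0 < γ := by simp only [hγ]; linarith
  set ρ := (gf' p (ENNReal.ofReal x₁)).toReal with hρ
  have hρt : gf' p (ENNReal.ofReal x₁) ≠ ∞ := ne_top_of_lt hx3
  have hρe : gf' p (ENNReal.ofReal x₁) = ENNReal.ofReal ρ := (ENNReal.ofReal_toReal hρt).symm
  have hρ0 : 0 ≤ ρ := ENNReal.toReal_nonneg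
  have hρ1 : ρ < 1 := by
    have := (ENNReal.toReal_lt_toReal hρt ENNReal.one_ne_top).2 hx3
    simpa using this
  obtain ⟨κ, hκ0, hκ⟩ := exists_kappa p hγ0
  set u := (1 - ρ) * γ / (1 + ρ * γ) with hu
  have hργ : 0 < 1 + ρ * γ := by positivity
  have hu0 : 0 < u := by
    have : 0 < 1 - ρ := by linarith
    positivity
  have hu1 : u + (1 + u) * (ρ * γ) = γ := by
    simp only [hu]
    field_simp
    ring
  set lam := Real.log (1 + u) / κ with hlam
  have hlog : 0 < Real.log (1 + u) := Real.log_pos (by linarith)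
  have hlam0 : 0 < lam := by positivity
  have hκlam : Real.exp (κ * lam) = 1 + u := by
    rw [hlam, mul_div_cancel₀ _ hκ0.ne', Real.exp_log (by linarith)]
  refine ⟨lam, hlam0, κ, hκ0, ENNReal.ofReal (ρ * γ), ENNReal.ofReal_ne_top, fun n => ?_⟩
  induction n with
  | zero => simp [Phi]
  | succ n ih =>
    set a : (Vertex → ℕ) → ℝ≥0∞ := fun ξ =>
      ENNReal.ofReal (Real.exp (κ * (lam + Phi lam n ξ)) - 1) with ha
    set b : (Vertex → ℕ) → ℝ≥0∞ := fun ξ => ENNReal.ofReal (Real.exp (-(κ * psi (G ξ)))) with hb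
    have ham : Measurable a :=
      ((Real.measurable_exp.comp ((measurable_const.add (measurable_Phi lam n)).const_mul
        κ)).sub_const 1).ennreal_ofReal
    have hbm : Measurable b := measurable_exp_psi κ
    have hE : ∀ ξ : Vertex → ℕ, (1 : ℝ) ≤ Real.exp (κ * Phi lam n ξ) := fun ξ =>
      Real.one_le_exp (mul_nonneg hκ0.le (Phi_nonneg _ _ _))
    have haint : ∫⁻ ξ, a ξ ∂(galtonWatson p) ≤ ENNReal.ofReal γ := by
      have h1 : ∀ ξ, a ξ = ENNReal.ofReal u + ENNReal.ofReal (1 + u) *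
          ENNReal.ofReal (Real.exp (κ * Phi lam n ξ) - 1) := by
        intro ξ
        have h2 : 0 ≤ Real.exp (κ * Phi lam n ξ) - 1 := by linarith [hE ξ]
        rw [← ENNReal.ofReal_mul (by linarith), ← ENNReal.ofReal_add hu0.le
          (mul_nonneg (by linarith) h2)]
        simp only [ha]
        congr 1
        rw [mul_add, Real.exp_add, hκlam]
        ring
      simp_rw [h1]
      have hmM : Measurable fun ξ : Vertex → ℕ =>
          ENNReal.ofReal (Real.exp (κ * Phi lam n ξ) - 1) :=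
        ((Real.measurable_exp.comp ((measurable_Phi lam n).const_mul κ)).sub_const
          1).ennreal_ofReal
      rw [lintegral_add_left measurable_const, lintegral_const_mul _ hmM]
      simp only [lintegral_const, measure_univ, mul_one]
      calc ENNReal.ofReal u + ENNReal.ofReal (1 + u) *
            ∫⁻ ξ, ENNReal.ofReal (Real.exp (κ * Phi lam n ξ) - 1) ∂(galtonWatson p)
          ≤ ENNReal.ofReal u + ENNReal.ofReal (1 + u) * ENNReal.ofReal (ρ * γ) := by gcongr
        _ = ENNReal.ofReal γ := by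
          rw [← ENNReal.ofReal_mul (by linarith), ← ENNReal.ofReal_add hu0.le (by positivity),
            hu1]
    have hzint : ∫⁻ ξ, (a ξ + b ξ) ∂(galtonWatson p) ≤ ENNReal.ofReal x₁ := by
      rw [lintegral_add_left ham]
      refine (add_le_add haint hκ).trans ?_
      rw [← ENNReal.ofReal_add hγ0.le (by linarith)]
      apply ENNReal.ofReal_le_ofReal
      simp only [hγ]; linarith
    calc ∫⁻ ξ, ENNReal.ofReal (Real.exp (κ * Phi lam (n + 1) ξ) - 1) ∂(galtonWatson p)
        ≤ ∫⁻ ξ, ∑ i ∈ Finset.range (ξ []), a (sh i ξ) *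
            ∏ j ∈ (Finset.range (ξ [])).erase i, (a (sh j ξ) + b (sh j ξ))
              ∂(galtonWatson p) := by
          refine lintegral_mono fun ξ => ?_
          have h0 : ∀ i, 0 ≤ Real.exp (κ * (lam + Phi lam n (sh i ξ))) - 1 := by
            intro i
            have : (1 : ℝ) ≤ Real.exp (κ * (lam + Phi lam n (sh i ξ))) :=
              Real.one_le_exp (mul_nonneg hκ0.le (add_nonneg hlam0.le (Phi_nonneg _ _ _)))
            linarith
          have h1 := ENNReal.ofReal_le_ofReal (exp_Phi_le hlam0.le hκ0.le n ξ)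
          refine h1.trans (le_of_eq ?_)
          rw [ENNReal.ofReal_sum_of_nonneg fun i _ => mul_nonneg (h0 i)
            (Finset.prod_nonneg fun j _ => add_nonneg (h0 j) (Real.exp_pos _).le)]
          refine Finset.sum_congr rfl fun i _ => ?_
          rw [ENNReal.ofReal_mul (h0 i), ENNReal.ofReal_prod_of_nonneg
            fun j _ => add_nonneg (h0 j) (Real.exp_pos _).le]
          congr 1
          refine Finset.prod_congr rfl fun j _ => ?_
          rw [ENNReal.ofReal_add (h0 j) (Real.exp_pos _).le]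
      _ = (∫⁻ ξ, a ξ ∂(galtonWatson p)) * gf' p (∫⁻ ξ, (a ξ + b ξ) ∂(galtonWatson p)) :=
          lintegral_sum_children p ham (ham.add hbm)
      _ ≤ ENNReal.ofReal γ * ENNReal.ofReal ρ := by
          gcongr
          rw [← hρe]
          exact gf'_mono p hzint
      _ = ENNReal.ofReal (ρ * γ) := by
          rw [← ENNReal.ofReal_mul hγ0.le, mul_comm]

/-! ### The limiting costs -/

/-- The limiting costs. -/
noncomputable def Phi' (lam : ℝ) (ξ : Vertex → ℕ) : ℝ := ⨆ n, Phi lam n ξ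

lemma Phi'_nonneg (lam : ℝ) (ξ : Vertex → ℕ) : 0 ≤ Phi' lam ξ :=
  Real.iSup_nonneg fun n => Phi_nonneg lam n ξ

/-- The set of good trees. -/
def Good (lam : ℝ) (ξ : Vertex → ℕ) : Prop := BddAbove (range fun n => Phi lam n ξ)

lemma Phi'_ge {lam : ℝ} {ξ : Vertex → ℕ} (h : Good lam ξ) (h' : ∀ i, Good lam (sh i ξ)) :
    ∑ i ∈ Finset.range (ξ []), (lam + Phi' lam (sh i ξ)) - psi (D ξ) ≤ Phi' lam ξ := by
  have h1 : Tendsto (fun n => ∑ i ∈ Finset.range (ξ []), (lam + Phi lam n (sh i ξ)) - psi (D ξ))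
      atTop (𝓝 (∑ i ∈ Finset.range (ξ []), (lam + Phi' lam (sh i ξ)) - psi (D ξ))) := by
    refine Tendsto.sub_const ?_ _
    refine tendsto_finsetSum _ fun i _ => ?_
    exact (tendsto_atTop_ciSup (Phi_mono lam (sh i ξ)) (h' i)).const_add lam
  refine le_of_tendsto' h1 fun n => ?_
  have h2 : Phi lam (n + 1) ξ ≤ Phi' lam ξ := le_ciSup h (n + 1)
  refine le_trans ?_ h2
  exact le_max_right _ _

lemma ae_good {lam κ : ℝ} (hκ : 0 < κ) {C : ℝ≥0∞} (hC : C ≠ ∞)
    (h : ∀ n, ∫⁻ ξ, ENNReal.ofReal (Real.exp (κ * Phi lam n ξ) - 1) ∂(galtonWatson p) ≤ C) :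
    ∀ᵐ ξ ∂(galtonWatson p), ∀ v, Good lam (sub v ξ) := by
  have hmM : ∀ n, Measurable fun ξ : Vertex → ℕ =>
      ENNReal.ofReal (Real.exp (κ * Phi lam n ξ) - 1) := fun n =>
    ((Real.measurable_exp.comp ((measurable_Phi lam n).const_mul κ)).sub_const 1).ennreal_ofReal
  have h1 : ∀ᵐ ξ ∂(galtonWatson p), Good lam ξ := by
    have h2 : ∫⁻ ξ, ⨆ n, ENNReal.ofReal (Real.exp (κ * Phi lam n ξ) - 1) ∂(galtonWatson p) ≤ C := by
      rw [lintegral_iSup hmM]
      · exact iSup_le h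
      · intro n m hnm ξ
        apply ENNReal.ofReal_le_ofReal
        have := Phi_mono lam ξ hnm
        have h3 : Real.exp (κ * Phi lam n ξ) ≤ Real.exp (κ * Phi lam m ξ) :=
          Real.exp_le_exp.2 (mul_le_mul_of_nonneg_left this hκ.le)
        linarith
    have h3 := ae_lt_top (Measurable.iSup hmM) (ne_top_of_le_ne_top hC h2)
    filter_upwards [h3] with ξ hξ
    refine ⟨(⨆ n, ENNReal.ofReal (Real.exp (κ * Phi lam n ξ) - 1)).toReal / κ, ?_⟩
    rintro _ ⟨n, rfl⟩
    show Phi lam n ξ ≤ _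
    rw [le_div_iff₀ hκ]
    have h4 : ENNReal.ofReal (Real.exp (κ * Phi lam n ξ) - 1) ≤
        ⨆ n, ENNReal.ofReal (Real.exp (κ * Phi lam n ξ) - 1) := le_iSup (fun n =>
          ENNReal.ofReal (Real.exp (κ * Phi lam n ξ) - 1)) n
    have h5 := (ENNReal.ofReal_le_iff_le_toReal hξ.ne).1 h4
    have h6 := Real.add_one_le_exp (κ * Phi lam n ξ)
    linarith
  rw [ae_all_iff]
  intro v
  have h2 : ∀ᵐ ξ ∂((galtonWatson p).map (sub v)), Good lam ξ := by rwa [map_sub]
  exact ae_of_ae_map (measurable_sub v).aemeasurable h2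

lemma ae_survives_sub (hp : 1 < ∫⁻ k, (k : ℝ≥0∞) ∂p) :
    ∀ᵐ ξ ∂(galtonWatson p), ∀ v, sub v ξ ∈ Survives → 0 < G (sub v ξ) := by
  rw [ae_all_iff]
  intro v
  have h2 : ∀ᵐ ξ ∂((galtonWatson p).map (sub v)), ξ ∈ Survives → 0 < G ξ := by
    rw [map_sub]; exact ae_survives_G_pos p hp
  exact ae_of_ae_map (measurable_sub v).aemeasurable h2

end Pool.Agent.Helper97.Frog
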