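import Pool.Agent.Helper97.Frog.Walk

open MeasureTheory ProbabilityTheory Set
open scoped ENNReal NNReal

namespace Pool.Agent.Helper97.Frog

/-! ### Resampling one coordinate of a product measure -/

lemma infinitePi_map_update {ι : Type*} [DecidableEq ι] {X : ι → Type*}
    [∀ i, MeasurableSpace (X i)] (μ : (i : ι) → Measure (X i)) [∀ i, IsProbabilityMeasure (μ i)]
    (y : ι) :
    ((Measure.infinitePi μ).prod (μ y)).map (fun p => Function.update p.1 y p.2) =
      Measure.infinitePi μ := by
  have hm : Measurable fun p : ((i : ι) → X i) × X y => Function.update p.1 y p.2 := by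
    rw [measurable_pi_iff]
    intro i
    by_cases h : i = y
    · subst h
      simpa using measurable_snd
    · simp only [Function.update_of_ne h]
      exact (measurable_pi_apply i).comp measurable_fst
  refine Measure.eq_infinitePi μ fun s t ht => ?_
  rw [Measure.map_apply hm (MeasurableSet.pi s.countable_toSet fun i _ => ht i)]
  have hset : (fun p : ((i : ι) → X i) × X y => Function.update p.1 y p.2) ⁻¹' (Set.pi s t) =
      (Set.pi (s.erase y : Finset ι) t) ×ˢ (if y ∈ s then t y else univ) := by
    ext p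
    simp only [mem_preimage, Set.mem_pi, Finset.mem_coe, mem_prod, Finset.mem_erase]
    constructor
    · intro h
      refine ⟨fun i hi => ?_, ?_⟩
      · have := h i hi.2
        rwa [Function.update_of_ne hi.1] at this
      · split_ifs with hy
        · have := h y hy
          rwa [Function.update_self] at this
        · trivial
    · rintro ⟨h1, h2⟩ i hi
      by_cases hiy : i = y
      · subst hiy
        rw [Function.update_self]
        rwa [if_pos hi] at h2
      · rw [Function.update_of_ne hiy]
        exact h1 i ⟨hiy, hi⟩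
  rw [hset, Measure.prod_prod, Measure.infinitePi_pi _ fun i _ => ht i]
  split_ifs with hy
  · rw [Finset.prod_erase_mul s (fun i => μ i (t i)) hy]
  · rw [measure_univ, mul_one, Finset.erase_eq_of_notMem hy]

lemma lintegral_mul_of_indep_coord {ι : Type*} [DecidableEq ι] {X : ι → Type*}
    [∀ i, MeasurableSpace (X i)] (μ : (i : ι) → Measure (X i)) [∀ i, IsProbabilityMeasure (μ i)]
    (y : ι) {H : ((i : ι) → X i) → ℝ≥0∞} (hH : Measurable H) {g : X y → ℝ≥0∞} (hg : Measurable g)
    (hind : ∀ ω a, H (Function.update ω y a) = H ω) :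
    ∫⁻ ω, H ω * g (ω y) ∂(Measure.infinitePi μ) =
      (∫⁻ ω, H ω ∂(Measure.infinitePi μ)) * ∫⁻ a, g a ∂(μ y) := by
  have hm : Measurable fun p : ((i : ι) → X i) × X y => Function.update p.1 y p.2 := by
    rw [measurable_pi_iff]
    intro i
    by_cases h : i = y
    · subst h
      simpa using measurable_snd
    · simp only [Function.update_of_ne h]
      exact (measurable_pi_apply i).comp measurable_fst
  have hmeas : Measurable fun ω : ((i : ι) → X i) => H ω * g (ω y) :=
    hH.mul (hg.comp (measurable_pi_apply y))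
  conv_lhs => rw [← infinitePi_map_update μ y]
  rw [lintegral_map hmeas hm]
  have e : ∀ p : ((i : ι) → X i) × X y,
      H (Function.update p.1 y p.2) * g (Function.update p.1 y p.2 y) = H p.1 * g p.2 := by
    intro p
    rw [hind, Function.update_self]
  simp_rw [e]
  rw [lintegral_prod_mul hH.aemeasurable hg.aemeasurable]

/-! ### Finite balls of the tree -/

/-- Vertices of the tree at height `n`. -/
def level (ξ : Vertex → ℕ) : ℕ → Finset Vertex
  | 0 => {[]}
  | n + 1 => (level ξ n).biUnion fun v => (Finset.range (ξ v)).image fun i => v ++ [i]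

lemma mem_level {ξ : Vertex → ℕ} {n : ℕ} {v : Vertex} :
    v ∈ level ξ n ↔ InTree ξ v ∧ v.length = n := by
  induction n generalizing v with
  | zero =>
    simp only [level, Finset.mem_singleton, List.length_eq_zero_iff]
    constructor
    · rintro rfl; exact ⟨inTree_nil ξ, rfl⟩
    · exact fun h => h.2
  | succ n ih =>
    simp only [level, Finset.mem_biUnion, Finset.mem_image, Finset.mem_range]
    constructor
    · rintro ⟨w, hw, i, hi, rfl⟩
      obtain ⟨h1, h2⟩ := ih.1 hw
      exact ⟨h1.child hi, by simp [h2]⟩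
    · rintro ⟨h1, h2⟩
      rcases List.eq_nil_or_concat v with rfl | ⟨w, i, rfl⟩
      · simp at h2
      · rw [List.concat_eq_append] at *
        refine ⟨w, ih.2 ⟨h1.of_isPrefix (List.prefix_append _ _), ?_⟩, i, h1.lt, rfl⟩
        simpa using h2

/-- Vertices of the tree at height at most `n`. -/
def ball (ξ : Vertex → ℕ) (n : ℕ) : Finset Vertex := (Finset.range (n + 1)).biUnion (level ξ)

lemma mem_ball {ξ : Vertex → ℕ} {n : ℕ} {v : Vertex} :
    v ∈ ball ξ n ↔ InTree ξ v ∧ v.length ≤ n := by
  simp only [ball, Finset.mem_biUnion, Finset.mem_range, mem_level]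
  constructor
  · rintro ⟨m, hm, h1, h2⟩
    exact ⟨h1, by omega⟩
  · rintro ⟨h1, h2⟩
    exact ⟨v.length, by omega, h1, rfl⟩

lemma nil_mem_ball (ξ : Vertex → ℕ) (n : ℕ) : [] ∈ ball ξ n :=
  mem_ball.2 ⟨inTree_nil ξ, by simp⟩

/-! ### Activation inside a finite set -/

/-- Activation of vertices by chains which stay in `S`. -/
inductive ActIn (S : Set Vertex) (ω : Config) : Vertex → Prop
  | root : ActIn S ω []
  | visit {u v : Vertex} {i n : ℕ} (hu : ActIn S ω u) (hi : i < numFrogs ω u)
      (hn : (ω u).2 i n = v) (hv : v ∈ S) : ActIn S ω v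

lemma ActIn.activated {S : Set Vertex} {ω : Config} {v : Vertex} (h : ActIn S ω v) :
    Activated ω v := by
  induction h with
  | root => exact Activated.root
  | visit hu hi hn hv ih => exact Activated.visit ih hi hn

lemma ActIn.mono {S S' : Set Vertex} (hS : S ⊆ S') {ω : Config} {v : Vertex} (h : ActIn S ω v) :
    ActIn S' ω v := by
  induction h with
  | root => exact ActIn.root
  | visit hu hi hn hv ih => exact ActIn.visit ih hi hn (hS hv)

/-- The activation of `y` does not depend on the particles of `y`. -/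
lemma ActIn.of_update {S : Set Vertex} {ω : Config} {y : Vertex} (a : ℕ × (ℕ → ℕ → Vertex))
    (h : ActIn S ω y) : ActIn S (Function.update ω y a) y := by
  have key : ∀ v, ActIn S ω v →
      ActIn S (Function.update ω y a) v ∨ ActIn S (Function.update ω y a) y := by
    intro v hv
    induction hv with
    | root => exact Or.inl ActIn.root
    | @visit u v i n hu hi hn hv ih =>
      rcases ih with ih | ih
      · by_cases huy : u = y
        · subst huy; exact Or.inr ih
        · left
          refine ActIn.visit ih (i := i) (n := n) ?_ ?_ hv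
          · unfold numFrogs at hi ⊢
            rwa [Function.update_of_ne huy]
          · rwa [Function.update_of_ne huy]
      · exact Or.inr ih
  rcases key y h with h | h <;> exact h

lemma actIn_update_iff {S : Set Vertex} {ω : Config} {y : Vertex} (a : ℕ × (ℕ → ℕ → Vertex)) :
    ActIn S (Function.update ω y a) y ↔ ActIn S ω y := by
  constructor
  · intro h
    have := h.of_update (ω y)
    rwa [Function.update_idem, Function.update_eq_self] at this
  · exact fun h => h.of_update a

/-- Stages of the activation, used for measurability. -/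
def stage (S : Set Vertex) (ω : Config) : ℕ → Set Vertex
  | 0 => {[]}
  | k + 1 => stage S ω k ∪
      {v | v ∈ S ∧ ∃ u, u ∈ stage S ω k ∧ ∃ i, i < numFrogs ω u ∧ ∃ n, (ω u).2 i n = v}

lemma stage_mono (S : Set Vertex) (ω : Config) : Monotone (stage S ω) :=
  monotone_nat_of_le_succ fun _ => subset_union_left

lemma actIn_iff_stage {S : Set Vertex} {ω : Config} {v : Vertex} :
    ActIn S ω v ↔ ∃ k, v ∈ stage S ω k := by
  constructor
  · intro h
    induction h with
    | root => exact ⟨0, rfl⟩
    | @visit u v i n hu hi hn hv ih =>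
      obtain ⟨k, hk⟩ := ih
      exact ⟨k + 1, Or.inr ⟨hv, u, hk, i, hi, n, hn⟩⟩
  · rintro ⟨k, hk⟩
    induction k generalizing v with
    | zero =>
      have : v = [] := hk
      rw [this]; exact ActIn.root
    | succ k ih =>
      rcases hk with hk | ⟨hv, u, hu, i, hi, n, hn⟩
      · exact ih hk
      · exact ActIn.visit (ih hu) hi hn hv

lemma measurable_numFrogs (u : Vertex) : Measurable fun ω : Config => numFrogs ω u := by
  unfold numFrogs
  split_ifs
  · exact measurable_const
  · exact measurable_fst.comp (measurable_pi_apply u)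

lemma measurable_path (u : Vertex) (i n : ℕ) : Measurable fun ω : Config => (ω u).2 i n :=
  (measurable_pi_apply n).comp ((measurable_pi_apply i).comp
    (measurable_snd.comp (measurable_pi_apply u)))

lemma measurableSet_stage (S : Set Vertex) (v : Vertex) (k : ℕ) :
    MeasurableSet {ω : Config | v ∈ stage S ω k} := by
  induction k generalizing v with
  | zero => exact MeasurableSet.const _
  | succ k ih =>
    have e : {ω : Config | v ∈ stage S ω (k + 1)} = {ω : Config | v ∈ stage S ω k} ∪
        ({ω : Config | v ∈ S} ∩ ⋃ u : Vertex, {ω : Config | u ∈ stage S ω k} ∩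
          ⋃ i : ℕ, {ω : Config | i < numFrogs ω u} ∩
            ⋃ n : ℕ, {ω : Config | (ω u).2 i n = v}) := by
      ext ω
      simp only [stage, mem_union, mem_ofPred_eq, mem_inter_iff, mem_iUnion]
    rw [e]
    refine (ih v).union ((MeasurableSet.const _).inter (MeasurableSet.iUnion fun u =>
      (ih u).inter (MeasurableSet.iUnion fun i => ?_)))
    refine (measurableSet_lt measurable_const (measurable_numFrogs u)).inter
      (MeasurableSet.iUnion fun n => ?_)
    exact (measurable_path u i n) (MeasurableSet.singleton v)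

lemma measurableSet_actIn (S : Set Vertex) (v : Vertex) :
    MeasurableSet {ω : Config | ActIn S ω v} := by
  have e : {ω : Config | ActIn S ω v} = ⋃ k, {ω : Config | v ∈ stage S ω k} := by
    ext ω; simp [actIn_iff_stage]
  rw [e]
  exact MeasurableSet.iUnion fun k => measurableSet_stage S v k

/-! ### Path functionals -/

/-- The trajectory visits the root. -/
def hits (x : ℕ → Vertex) : Prop := ∃ n, x n = []

/-- The trajectory jumps from the parent of `z` to `z` at some time. -/
def crosses (x : ℕ → Vertex) (z : Vertex) : Prop := ∃ n, x n = z.dropLast ∧ x (n + 1) = z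

lemma measurableSet_hits : MeasurableSet {x | hits x} := by
  have e : {x : ℕ → Vertex | hits x} = ⋃ n, {x | x n = []} := by ext x; simp [hits]
  rw [e]
  exact MeasurableSet.iUnion fun n =>
    (measurable_pi_apply (X := fun _ : ℕ => Vertex) n) (MeasurableSet.singleton ([] : Vertex))

lemma measurableSet_crosses (z : Vertex) : MeasurableSet {x | crosses x z} := by
  have e : {x : ℕ → Vertex | crosses x z} = ⋃ n, {x | x n = z.dropLast} ∩ {x | x (n + 1) = z} := by
    ext x; simp [crosses]
  rw [e]
  exact MeasurableSet.iUnion fun n => ((measurable_pi_apply n) (MeasurableSet.singleton _)).inter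
    ((measurable_pi_apply (n + 1)) (MeasurableSet.singleton _))

/-- The cost function of a jump. -/
noncomputable def jumpCost (c : Vertex → ℝ≥0∞) (s0 : ℝ≥0∞) (x y : Vertex) : ℝ≥0∞ :=
  (if x = [] then s0 else 0) + (if y ≠ [] ∧ y.dropLast = x then c y else 0)

/-- The total gain of a trajectory: `s0` if the root is visited plus `c z` for every `z ∈ S` which
is entered from its parent. -/
noncomputable def gain (S : Finset Vertex) (c : Vertex → ℝ≥0∞) (s0 : ℝ≥0∞) (x : ℕ → Vertex) :
    ℝ≥0∞ :=
  s0 * {x | hits x}.indicator 1 x + ∑ z ∈ S, c z * {x | crosses x z}.indicator 1 x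

lemma measurable_gain (S : Finset Vertex) (c : Vertex → ℝ≥0∞) (s0 : ℝ≥0∞) :
    Measurable (gain S c s0) := by
  unfold gain
  exact ((measurable_one.indicator measurableSet_hits).const_mul s0).add
    (Finset.measurable_sum _ fun z _ =>
      (measurable_one.indicator (measurableSet_crosses z)).const_mul (c z))

lemma gain_le (S : Finset Vertex) (hS : ∀ z ∈ S, z ≠ []) (c : Vertex → ℝ≥0∞) (s0 : ℝ≥0∞)
    (x : ℕ → Vertex) : gain S c s0 x ≤ ∑' n, jumpCost c s0 (x n) (x (n + 1)) := by
  classical
  unfold gain jumpCost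
  rw [ENNReal.tsum_add]
  refine add_le_add ?_ ?_
  · by_cases hx : hits x
    · obtain ⟨n, hn⟩ := hx
      have h1 : (if x n = [] then s0 else 0) ≤ ∑' n, (if x n = [] then s0 else 0) :=
        ENNReal.le_tsum n
      rw [if_pos hn] at h1
      refine le_trans ?_ h1
      exact mul_le_of_le_one_right' (indicator_le_self' (fun _ _ => zero_le_one) x)
    · rw [indicator_of_notMem (by exact hx), mul_zero]
      exact zero_le
  · have h1 : ∀ z ∈ S, c z * {x | crosses x z}.indicator 1 x ≤
        ∑' n, (if x n = z.dropLast ∧ x (n + 1) = z then c z else 0) := by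
      intro z _
      by_cases hx : crosses x z
      · obtain ⟨n, hn⟩ := hx
        have h1 : (if x n = z.dropLast ∧ x (n + 1) = z then c z else 0) ≤
            ∑' n, (if x n = z.dropLast ∧ x (n + 1) = z then c z else 0) := ENNReal.le_tsum n
        rw [if_pos hn] at h1
        refine le_trans ?_ h1
        exact mul_le_of_le_one_right' (indicator_le_self' (fun _ _ => zero_le_one) x)
      · rw [indicator_of_notMem (by exact hx), mul_zero]
        exact zero_le
    refine (Finset.sum_le_sum h1).trans ?_
    rw [← Summable.tsum_finsetSum fun z _ => ENNReal.summable]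
    refine ENNReal.tsum_le_tsum fun n => ?_
    have h2 : ∀ z ∈ S, (if x n = z.dropLast ∧ x (n + 1) = z then c z else 0) =
        if z = x (n + 1) then (if x (n + 1) ≠ [] ∧ (x (n + 1)).dropLast = x n then c (x (n + 1))
          else 0) else 0 := by
      intro z hz
      have hz0 := hS z hz
      by_cases h : z = x (n + 1)
      · rw [if_pos h, ← h]
        by_cases h' : z.dropLast = x n
        · simp [h', hz0]
        · have h'' : ¬ (x n = z.dropLast) := fun e => h' e.symm
          simp [h', h'']
      · rw [if_neg h, if_neg]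
        exact fun e => h e.2.symm
    rw [Finset.sum_congr rfl h2, Finset.sum_ite_eq' S (x (n + 1))]
    split_ifs <;> simp_all

lemma lintegral_gain_le {ξ : Vertex → ℕ} (hne : ∀ v, InTree ξ v → (nbrs ξ v).Nonempty)
    {S : Finset Vertex} (hS : ∀ z ∈ S, z ≠ []) {c : Vertex → ℝ≥0∞} {s0 : ℝ≥0∞}
    {h : Vertex → ℝ≥0∞}
    (hstep : ∀ x, InTree ξ x → ∑ y ∈ nbrs ξ x, (jumpCost c s0 x y + h y) ≤ (nbrs ξ x).card * h x)
    {v : Vertex} (hv : InTree ξ v) : ∫⁻ x, gain S c s0 x ∂(walkLaw ξ v) ≤ h v :=
  (lintegral_mono (gain_le S hS c s0)).trans (lintegral_cost_le hne _ h hstep hv)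

/-! ### The particles of one vertex -/

/-- The number of particles of `y` as a function of the coordinate of `y`. -/
def cnt (y : Vertex) (k : ℕ) : ℕ := if y = [] then 1 else k

lemma numFrogs_eq (ω : Config) (y : Vertex) : numFrogs ω y = cnt y (ω y).1 := rfl

/-- The sum of a functional over the particles of a vertex. -/
noncomputable def frogSum (y : Vertex) (g : (ℕ → Vertex) → ℝ≥0∞) (a : ℕ × (ℕ → ℕ → Vertex)) :
    ℝ≥0∞ := ∑' i : ℕ, if i < cnt y a.1 then g (a.2 i) else 0

lemma measurable_frogSum (y : Vertex) {g : (ℕ → Vertex) → ℝ≥0∞} (hg : Measurable g) :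
    Measurable (frogSum y g) := by
  unfold frogSum
  refine Measurable.tsum fun i => ?_
  have h1 : Measurable fun a : ℕ × (ℕ → ℕ → Vertex) => cnt y a.1 :=
    (measurable_of_countable (cnt y)).comp measurable_fst
  refine Measurable.ite (measurableSet_lt measurable_const h1) ?_ measurable_const
  exact hg.comp ((measurable_pi_apply i).comp measurable_snd)

lemma tsum_lt_cnt (m : ℕ) : ∑' i : ℕ, (if i < m then (1 : ℝ≥0∞) else 0) = m := by
  rw [tsum_eq_sum (s := Finset.range m)]
  · rw [Finset.sum_congr rfl fun i hi => if_pos (Finset.mem_range.1 hi)]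
    simp
  · intro i hi
    rw [if_neg (by simpa using hi)]

/-- The law of the particles of the vertex `y`. -/
noncomputable abbrev siteLaw (lam : ℝ≥0) (ξ : Vertex → ℕ) (y : Vertex) :
    Measure (ℕ × (ℕ → ℕ → Vertex)) :=
  (poissonMeasure lam).prod (Measure.infinitePi fun _ : ℕ => walkLaw ξ y)

lemma lintegral_frogSum (lam : ℝ≥0) (ξ : Vertex → ℕ) (y : Vertex) {g : (ℕ → Vertex) → ℝ≥0∞}
    (hg : Measurable g) : ∫⁻ a, frogSum y g a ∂(siteLaw lam ξ y) =
      (∫⁻ k, (cnt y k : ℝ≥0∞) ∂(poissonMeasure lam)) * ∫⁻ x, g x ∂(walkLaw ξ y) := by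
  unfold frogSum
  rw [lintegral_tsum]
  · have h1 : ∀ i : ℕ, ∫⁻ a, (if i < cnt y a.1 then g (a.2 i) else 0) ∂(siteLaw lam ξ y) =
        (∫⁻ k, (if i < cnt y k then (1 : ℝ≥0∞) else 0) ∂(poissonMeasure lam)) *
          ∫⁻ x, g x ∂(walkLaw ξ y) := by
      intro i
      have h2 : ∀ a : ℕ × (ℕ → ℕ → Vertex), (if i < cnt y a.1 then g (a.2 i) else 0) =
          (if i < cnt y a.1 then (1 : ℝ≥0∞) else 0) * g (a.2 i) := by
        intro a; split_ifs <;> simp
      simp_rw [h2]
      have hgi : Measurable fun w : ℕ → ℕ → Vertex => g (w i) := hg.comp (measurable_pi_apply i)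
      rw [siteLaw, lintegral_prod_mul (f := fun k => if i < cnt y k then (1 : ℝ≥0∞) else 0)
        (g := fun w : ℕ → ℕ → Vertex => g (w i)) (measurable_of_countable _).aemeasurable
        hgi.aemeasurable]
      congr 1
      have h3 := Measure.infinitePi_map_eval (fun _ : ℕ => walkLaw ξ y) i
      conv_rhs => rw [← h3]
      rw [lintegral_map hg (measurable_pi_apply i)]
    simp_rw [h1]
    rw [ENNReal.tsum_mul_right]
    congr 1
    rw [← lintegral_tsum fun i => (measurable_of_countable _).aemeasurable]
    apply lintegral_congr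
    intro k
    exact tsum_lt_cnt _
  · intro i
    have h1 : Measurable fun a : ℕ × (ℕ → ℕ → Vertex) => cnt y a.1 :=
      (measurable_of_countable (cnt y)).comp measurable_fst
    exact (Measurable.ite (measurableSet_lt measurable_const h1)
      (hg.comp ((measurable_pi_apply i).comp measurable_snd)) measurable_const).aemeasurable

lemma lintegral_id_poisson (lam : ℝ≥0) : ∫⁻ k, (k : ℝ≥0∞) ∂(poissonMeasure lam) = lam := by
  rw [lintegral_countable']
  simp_rw [poissonMeasure_singleton]
  rw [tsum_eq_zero_add' ENNReal.summable]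
  simp only [Nat.cast_zero, zero_mul, zero_add]
  have h1 : ∀ k : ℕ, ((k + 1 : ℕ) : ℝ≥0∞) *
      ENNReal.ofReal (Real.exp (-lam) * lam ^ (k + 1) / (k + 1).factorial) =
      lam * ENNReal.ofReal (Real.exp (-lam) * lam ^ k / k.factorial) := by
    intro k
    rw [← ENNReal.ofReal_natCast, ← ENNReal.ofReal_coe_nnreal, ← ENNReal.ofReal_mul (by positivity),
      ← ENNReal.ofReal_mul (by positivity)]
    congr 1
    rw [Nat.factorial_succ]
    push_cast
    field_simp
    ring
  simp_rw [h1]
  rw [ENNReal.tsum_mul_left, ← ENNReal.ofReal_tsum_of_nonneg (fun k => by positivity)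
    (hasSum_one_poissonMeasure lam).summable, (hasSum_one_poissonMeasure lam).tsum_eq]
  simp

/-! ### The main quenched estimate -/

instance instIsProbabilityMeasureFrogMeasure (lam : ℝ≥0) (ξ : Vertex → ℕ) :
    IsProbabilityMeasure (frogMeasure lam ξ) := by
  unfold frogMeasure; infer_instance

lemma lintegral_act_mul (lam : ℝ≥0) (ξ : Vertex → ℕ) (S : Set Vertex) (y : Vertex)
    {g : ℕ × (ℕ → ℕ → Vertex) → ℝ≥0∞} (hg : Measurable g) :
    ∫⁻ ω, {ω | ActIn S ω y}.indicator 1 ω * g (ω y) ∂(frogMeasure lam ξ) =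
      frogMeasure lam ξ {ω | ActIn S ω y} * ∫⁻ a, g a ∂(siteLaw lam ξ y) := by
  have h1 := lintegral_mul_of_indep_coord (fun v => siteLaw lam ξ v) y
    (H := {ω : Config | ActIn S ω y}.indicator 1)
    (measurable_one.indicator (measurableSet_actIn S y)) hg (by
      intro ω a
      by_cases h : ActIn S ω y
      · rw [indicator_of_mem (by exact (actIn_update_iff a).2 h), indicator_of_mem (by exact h)]
        rfl
      · rw [indicator_of_notMem (by exact fun h' => h ((actIn_update_iff a).1 h')),
          indicator_of_notMem (by exact h)])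
  rw [lintegral_indicator_one (measurableSet_actIn S y)] at h1
  exact h1

/-- All trajectories are nearest neighbour paths in the tree started at their own vertex. -/
def GoodPaths (ξ : Vertex → ℕ) (ω : Config) : Prop :=
  ∀ y, InTree ξ y → ∀ i, (ω y).2 i 0 = y ∧ (∀ n, InTree ξ ((ω y).2 i n)) ∧
    ∀ n, (ω y).2 i (n + 1) ∈ nbrs ξ ((ω y).2 i n)

lemma goodPaths_ae (lam : ℝ≥0) {ξ : Vertex → ℕ}
    (hne : ∀ v, InTree ξ v → (nbrs ξ v).Nonempty) : ∀ᵐ ω ∂(frogMeasure lam ξ), GoodPaths ξ ω := by
  unfold GoodPaths
  rw [ae_all_iff]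
  intro y
  by_cases hy : InTree ξ y
  · simp only [hy, true_implies]
    rw [ae_all_iff]
    intro i
    have h1 := walk_ae hne hy
    have h2 : (frogMeasure lam ξ).map (fun ω : Config => (ω y).2 i) = walkLaw ξ y := by
      have e : (fun ω : Config => (ω y).2 i) =
          (fun w : ℕ → ℕ → Vertex => w i) ∘ Prod.snd ∘ (fun ω : Config => ω y) := rfl
      rw [e, ← Measure.map_map (measurable_pi_apply i) (measurable_snd.comp (measurable_pi_apply y)),
        ← Measure.map_map measurable_snd (measurable_pi_apply y), frogMeasure,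
        Measure.infinitePi_map_eval (fun v => siteLaw lam ξ v) y, siteLaw,
        Measure.map_snd_prod, measure_univ, one_smul,
        Measure.infinitePi_map_eval (fun _ : ℕ => walkLaw ξ y) i]
    rw [← h2] at h1
    exact ae_of_ae_map (f := fun ω : Config => (ω y).2 i) ((measurable_pi_apply i).comp
      (measurable_snd.comp (measurable_pi_apply y))).aemeasurable h1
  · exact Filter.Eventually.of_forall fun ω h => absurd h hy

/-- Every activated vertex, and each of its ancestors, is entered from its parent by a particle of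
an activated vertex. -/
lemma exists_cross {ξ : Vertex → ℕ} {ω : Config} (hω : GoodPaths ξ ω) {N : ℕ} {w : Vertex}
    (hw : ActIn (ball ξ N) ω w) : ∀ u i, u ++ [i] <+: w → ActIn (ball ξ N) ω u ∧
      ∃ y ∈ ball ξ N, ActIn (ball ξ N) ω y ∧ ∃ j < numFrogs ω y,
        crosses ((ω y).2 j) (u ++ [i]) := by
  have hmem : ∀ y, ActIn (ball ξ N) ω y → y ∈ ball ξ N := by
    intro y hy
    cases hy with
    | root => exact nil_mem_ball ξ N
    | visit _ _ _ hv => exact hv
  induction hw with
  | root => intro u i h; simp at h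
  | @visit y v j n hy hj hn hv ih =>
    intro u i hui
    by_cases hp : u ++ [i] <+: y
    · exact ih u i hp
    · have hyt : InTree ξ y := (mem_ball.1 (hmem y hy)).1
      obtain ⟨h0, ht, hx⟩ := hω y hyt j
      rw [← hn] at hui
      obtain ⟨m, hm1, hm2⟩ := exists_crossing hx (by rw [h0]; exact hp) n hui
      have hvb := mem_ball.1 hv
      have hub : u ∈ ball ξ N := by
        rw [mem_ball]
        rw [hn] at hui
        have h3 : u <+: v := (List.prefix_append u [i]).trans hui
        exact ⟨hvb.1.of_isPrefix h3, h3.length_le.trans hvb.2⟩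
      refine ⟨ActIn.visit hy hj hm1 hub, y, hmem y hy, hy, j, hj, m, ?_, hm2⟩
      rw [List.dropLast_concat]; exact hm1

/-- The weighted number of visitors of the root coming from vertices activated inside the ball. -/
noncomputable def visitCount (ξ : Vertex → ℕ) (N : ℕ) (ω : Config) : ℝ≥0∞ :=
  ∑ y ∈ ball ξ N, {ω | ActIn (ball ξ N) ω y}.indicator 1 ω *
    frogSum y ({x | hits x}.indicator 1) (ω y)

lemma measurable_visitCount (ξ : Vertex → ℕ) (N : ℕ) : Measurable (visitCount ξ N) := by
  unfold visitCount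
  refine Finset.measurable_sum _ fun y _ => ?_
  exact (measurable_one.indicator (measurableSet_actIn _ y)).mul
    ((measurable_frogSum y (measurable_one.indicator measurableSet_hits)).comp
      (measurable_pi_apply y))

lemma frogSum_gain (S : Finset Vertex) (c : Vertex → ℝ≥0∞) (s0 : ℝ≥0∞) (y : Vertex)
    (a : ℕ × (ℕ → ℕ → Vertex)) : frogSum y (gain S c s0) a =
      s0 * frogSum y ({x | hits x}.indicator 1) a +
        ∑ z ∈ S, c z * frogSum y ({x | crosses x z}.indicator 1) a := by
  unfold frogSum gain
  rw [← ENNReal.tsum_mul_left]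
  simp_rw [← ENNReal.tsum_mul_left]
  rw [← Summable.tsum_finsetSum fun z _ => ENNReal.summable, ← ENNReal.tsum_add]
  refine tsum_congr fun i => ?_
  split_ifs <;> simp

theorem quenched_bound (lam : ℝ≥0) {ξ : Vertex → ℕ}
    (hne : ∀ v, InTree ξ v → (nbrs ξ v).Nonempty) {c f F h : Vertex → ℝ≥0∞} {s0 : ℝ≥0∞}
    (hc : ∀ z, c z ≠ ∞) (hF : ∀ z, F z ≠ ∞)
    (hstep : ∀ x, InTree ξ x → ∑ y ∈ nbrs ξ x, (jumpCost c s0 x y + h y) ≤ (nbrs ξ x).card * h x)
    (hcost : ∀ z, InTree ξ z → z ≠ [] → lam * h z + F z ≤ c z + f z)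
    (hflow : ∀ x, InTree ξ x → ∑ i ∈ Finset.range (ξ x), f (x ++ [i]) ≤ F x) (N : ℕ) :
    s0 * ∫⁻ ω, visitCount ξ N ω ∂(frogMeasure lam ξ) ≤ h [] + F [] := by
  classical
  set L := ball ξ N with hL
  set L' := L.erase [] with hL'
  have hL'0 : ∀ z ∈ L', z ≠ [] := fun z hz => Finset.ne_of_mem_erase hz
  have hL't : ∀ z ∈ L', InTree ξ z := fun z hz => (mem_ball.1 (Finset.mem_of_mem_erase hz)).1
  have hnilL : [] ∈ L := nil_mem_ball ξ N
  set P : Vertex → ℝ≥0∞ := fun y => frogMeasure lam ξ {ω | ActIn L ω y} with hP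
  have hP1 : ∀ y, P y ≤ 1 := fun y => prob_le_one
  have hPt : ∀ y, P y ≠ ∞ := fun y => ne_top_of_le_ne_top ENNReal.one_ne_top (hP1 y)
  -- Step A
  have hA : ∫⁻ ω, ∑ y ∈ L, {ω | ActIn L ω y}.indicator 1 ω * frogSum y (gain L' c s0) (ω y)
      ∂(frogMeasure lam ξ) ≤ h [] + ∑ z ∈ L', P z * (lam * h z) := by
    rw [lintegral_finsetSum]
    · have h1 : ∀ y ∈ L, ∫⁻ ω, {ω | ActIn L ω y}.indicator 1 ω * frogSum y (gain L' c s0) (ω y)
          ∂(frogMeasure lam ξ) ≤ P y * ((∫⁻ k, (cnt y k : ℝ≥0∞) ∂(poissonMeasure lam)) * h y) := by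
        intro y hy
        rw [lintegral_act_mul lam ξ L y (measurable_frogSum y (measurable_gain L' c s0)),
          lintegral_frogSum lam ξ y (measurable_gain L' c s0)]
        gcongr
        exact lintegral_gain_le hne hL'0 hstep (mem_ball.1 hy).1
      refine (Finset.sum_le_sum h1).trans ?_
      rw [← Finset.add_sum_erase L _ hnilL]
      refine add_le_add ?_ ?_
      · have h2 : ∫⁻ k, (cnt [] k : ℝ≥0∞) ∂(poissonMeasure lam) = 1 := by
          simp [cnt]
        rw [h2, one_mul]
        exact mul_le_of_le_one_left' (hP1 _)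
      · refine Finset.sum_le_sum fun z hz => ?_
        have h2 : ∫⁻ k, (cnt z k : ℝ≥0∞) ∂(poissonMeasure lam) = lam := by
          have h3 : ∀ k, cnt z k = k := fun k => if_neg (hL'0 z hz)
          simp_rw [h3]
          exact lintegral_id_poisson lam
        rw [h2]
    · intro y _
      exact (measurable_one.indicator (measurableSet_actIn _ y)).mul
        ((measurable_frogSum y (measurable_gain L' c s0)).comp (measurable_pi_apply y))
  -- Step B
  have hB : ∀ᵐ ω ∂(frogMeasure lam ξ), s0 * visitCount ξ N ω +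
      ∑ z ∈ L', c z * {ω | ActIn L ω z}.indicator 1 ω ≤
      ∑ y ∈ L, {ω | ActIn L ω y}.indicator 1 ω * frogSum y (gain L' c s0) (ω y) := by
    filter_upwards [goodPaths_ae lam hne] with ω hω
    simp_rw [frogSum_gain, mul_add, Finset.sum_add_distrib]
    refine add_le_add ?_ ?_
    · unfold visitCount
      rw [Finset.mul_sum]
      refine Finset.sum_le_sum fun y _ => ?_
      rw [mul_left_comm]
    · simp_rw [Finset.mul_sum]
      rw [Finset.sum_comm]
      refine Finset.sum_le_sum fun z hz => ?_
      by_cases hact : ActIn L ω z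
      · have hz0 := hL'0 z hz
        obtain ⟨u, i, hui⟩ : ∃ u i, z = u ++ [i] := by
          rcases List.eq_nil_or_concat z with h | ⟨u, i, h⟩
          · exact absurd h hz0
          · exact ⟨u, i, by rw [h, List.concat_eq_append]⟩
        obtain ⟨-, y, hyL, hyact, j, hj, hcr⟩ := exists_cross hω hact u i (by rw [hui])
        rw [← hui] at hcr
        rw [indicator_of_mem (by exact hact), Pi.one_apply, mul_one]
        have h1 : 1 ≤ frogSum y ({x | crosses x z}.indicator 1) (ω y) := by
          unfold frogSum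
          have h2 : (if j < cnt y (ω y).1 then
              ({x | crosses x z}.indicator 1 ((ω y).2 j) : ℝ≥0∞) else 0) ≤
              ∑' i, (if i < cnt y (ω y).1 then
                {x | crosses x z}.indicator 1 ((ω y).2 i) else 0) :=
            ENNReal.le_tsum j
          rw [if_pos (by exact hj), indicator_of_mem (by exact hcr)] at h2
          exact h2
        have h3 : {ω | ActIn L ω y}.indicator 1 ω *
            (c z * frogSum y ({x | crosses x z}.indicator 1) (ω y)) ≤
            ∑ y ∈ L, {ω | ActIn L ω y}.indicator 1 ω *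
              (c z * frogSum y ({x | crosses x z}.indicator 1) (ω y)) :=
          Finset.single_le_sum (f := fun y => {ω | ActIn L ω y}.indicator 1 ω *
              (c z * frogSum y ({x | crosses x z}.indicator 1) (ω y))) (fun _ _ => zero_le) hyL
        refine le_trans ?_ h3
        rw [indicator_of_mem (by exact hyact), Pi.one_apply, one_mul]
        calc c z = c z * 1 := (mul_one _).symm
          _ ≤ _ := mul_le_mul_right h1 _
      · rw [indicator_of_notMem (by exact hact), mul_zero]
        exact zero_le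
  -- Step C
  have hC : s0 * ∫⁻ ω, visitCount ξ N ω ∂(frogMeasure lam ξ) + ∑ z ∈ L', c z * P z ≤
      h [] + ∑ z ∈ L', P z * (lam * h z) := by
    refine le_trans (le_of_eq ?_) ((lintegral_mono_ae hB).trans hA)
    rw [lintegral_add_left ((measurable_visitCount ξ N).const_mul s0),
      lintegral_const_mul _ (measurable_visitCount ξ N), lintegral_finsetSum]
    · congr 1
      refine Finset.sum_congr rfl fun z _ => ?_
      rw [lintegral_const_mul _ (measurable_one.indicator (measurableSet_actIn _ z)),
        lintegral_indicator_one (measurableSet_actIn _ z)]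
    · intro z _
      exact (measurable_one.indicator (measurableSet_actIn _ z)).const_mul (c z)
  -- Step D
  have hsumc : ∑ z ∈ L', c z * P z ≠ ∞ :=
    (ENNReal.sum_ne_top).2 fun z _ => ENNReal.mul_ne_top (hc z) (hPt z)
  have hsumF : ∑ z ∈ L', F z * P z ≠ ∞ :=
    (ENNReal.sum_ne_top).2 fun z _ => ENNReal.mul_ne_top (hF z) (hPt z)
  have hD : s0 * ∫⁻ ω, visitCount ξ N ω ∂(frogMeasure lam ξ) + ∑ z ∈ L', F z * P z ≤
      h [] + ∑ z ∈ L', f z * P z := by
    have h1 : ∑ z ∈ L', P z * (lam * h z) + ∑ z ∈ L', F z * P z ≤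
        ∑ z ∈ L', c z * P z + ∑ z ∈ L', f z * P z := by
      rw [← Finset.sum_add_distrib, ← Finset.sum_add_distrib]
      refine Finset.sum_le_sum fun z hz => ?_
      calc P z * (lam * h z) + F z * P z = (lam * h z + F z) * P z := by ring
        _ ≤ (c z + f z) * P z := mul_le_mul_left (hcost z (hL't z hz) (hL'0 z hz)) _
        _ = _ := by ring
    have h2 : (s0 * ∫⁻ ω, visitCount ξ N ω ∂(frogMeasure lam ξ) + ∑ z ∈ L', F z * P z) +
        ∑ z ∈ L', c z * P z ≤ (h [] + ∑ z ∈ L', f z * P z) + ∑ z ∈ L', c z * P z := by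
      calc (s0 * ∫⁻ ω, visitCount ξ N ω ∂(frogMeasure lam ξ) + ∑ z ∈ L', F z * P z) +
            ∑ z ∈ L', c z * P z
          = (s0 * ∫⁻ ω, visitCount ξ N ω ∂(frogMeasure lam ξ) + ∑ z ∈ L', c z * P z) +
            ∑ z ∈ L', F z * P z := by ring
        _ ≤ (h [] + ∑ z ∈ L', P z * (lam * h z)) + ∑ z ∈ L', F z * P z := by gcongr
        _ = h [] + (∑ z ∈ L', P z * (lam * h z) + ∑ z ∈ L', F z * P z) := by ring
        _ ≤ h [] + (∑ z ∈ L', c z * P z + ∑ z ∈ L', f z * P z) := by gcongr
        _ = _ := by ring
    exact (ENNReal.add_le_add_iff_right hsumc).1 h2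
  -- Step E
  have hE : ∑ z ∈ L', f z * P z ≤ F [] + ∑ z ∈ L', F z * P z := by
    have hmono : ∀ z ∈ L', P z ≤ P z.dropLast := by
      intro z hz
      refine measure_mono_ae ?_
      filter_upwards [goodPaths_ae lam hne] with ω hω hact
      have hz0 := hL'0 z hz
      obtain ⟨u, i, hui⟩ : ∃ u i, z = u ++ [i] := by
        rcases List.eq_nil_or_concat z with h | ⟨u, i, h⟩
        · exact absurd h hz0
        · exact ⟨u, i, by rw [h, List.concat_eq_append]⟩
      have := (exists_cross hω hact u i (by rw [hui])).1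
      show ActIn L ω z.dropLast
      rw [hui, List.dropLast_concat]
      exact this
    have hmaps : ∀ z ∈ L', z.dropLast ∈ L := by
      intro z hz
      have hz1 := mem_ball.1 (Finset.mem_of_mem_erase hz)
      exact mem_ball.2 ⟨hz1.1.of_isPrefix (List.dropLast_prefix z),
        ((List.dropLast_prefix z).length_le).trans hz1.2⟩
    calc ∑ z ∈ L', f z * P z ≤ ∑ z ∈ L', f z * P z.dropLast :=
          Finset.sum_le_sum fun z hz => mul_le_mul_right (hmono z hz) _
      _ = ∑ x ∈ L, ∑ z ∈ L' with z.dropLast = x, f z * P z.dropLast :=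
          (Finset.sum_fiberwise_of_maps_to hmaps _).symm
      _ ≤ ∑ x ∈ L, F x * P x := by
          refine Finset.sum_le_sum fun x hx => ?_
          have hxt : InTree ξ x := (mem_ball.1 hx).1
          calc ∑ z ∈ L' with z.dropLast = x, f z * P z.dropLast
              = ∑ z ∈ L' with z.dropLast = x, f z * P x := by
                refine Finset.sum_congr rfl fun z hz => ?_
                rw [(Finset.mem_filter.1 hz).2]
            _ ≤ ∑ z ∈ (Finset.range (ξ x)).image (fun i => x ++ [i]), f z * P x := by
                refine Finset.sum_le_sum_of_subset fun z hz => ?_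
                obtain ⟨hz1, hz2⟩ := Finset.mem_filter.1 hz
                have hz0 := hL'0 z hz1
                rcases List.eq_nil_or_concat z with h | ⟨u, i, h⟩
                · exact absurd h hz0
                · rw [List.concat_eq_append] at h
                  have hzt := hL't z hz1
                  rw [h, List.dropLast_concat] at hz2
                  rw [h, hz2] at hzt
                  rw [Finset.mem_image]
                  exact ⟨i, Finset.mem_range.2 hzt.lt, by rw [h, hz2]⟩
            _ = ∑ i ∈ Finset.range (ξ x), f (x ++ [i]) * P x := by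
                rw [Finset.sum_image]
                intro i _ j _ hij
                simpa using hij
            _ = (∑ i ∈ Finset.range (ξ x), f (x ++ [i])) * P x := by rw [Finset.sum_mul]
            _ ≤ F x * P x := mul_le_mul_left (hflow x hxt) _
      _ = F [] * P [] + ∑ z ∈ L', F z * P z := (Finset.add_sum_erase L _ hnilL).symm
      _ ≤ F [] + ∑ z ∈ L', F z * P z := by
          gcongr
          exact mul_le_of_le_one_right' (hP1 _)
  -- Step F
  have hG : s0 * ∫⁻ ω, visitCount ξ N ω ∂(frogMeasure lam ξ) + ∑ z ∈ L', F z * P z ≤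
      (h [] + F []) + ∑ z ∈ L', F z * P z := by
    refine hD.trans ?_
    rw [add_assoc]
    gcongr
  exact (ENNReal.add_le_add_iff_right hsumF).1 hG

/-! ### Transience from the uniform bound -/

lemma ActIn.mem_ball {ξ : Vertex → ℕ} {N : ℕ} {ω : Config} {y : Vertex}
    (h : ActIn (ball ξ N) ω y) : y ∈ ball ξ N := by
  cases h with
  | root => exact nil_mem_ball ξ N
  | visit _ _ _ hv => exact hv

lemma ball_mono (ξ : Vertex → ℕ) : Monotone (ball ξ) := by
  intro m n hmn v hv
  rw [mem_ball] at hv ⊢
  exact ⟨hv.1, hv.2.trans hmn⟩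

lemma visitCount_mono (ξ : Vertex → ℕ) (ω : Config) : Monotone fun N => visitCount ξ N ω := by
  intro m n hmn
  unfold visitCount
  refine (Finset.sum_le_sum fun y _ => ?_).trans (Finset.sum_le_sum_of_subset (ball_mono ξ hmn))
  gcongr
  intro h
  exact h.mono (by exact_mod_cast ball_mono ξ hmn)

lemma exists_actIn {ξ : Vertex → ℕ} {ω : Config} (hω : GoodPaths ξ ω) {y : Vertex}
    (hy : Activated ω y) : ∃ N, ActIn (ball ξ N) ω y := by
  induction hy with
  | root => exact ⟨0, ActIn.root⟩
  | @visit u v i n hu hi hn ih =>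
    obtain ⟨N, hN⟩ := ih
    have hut : InTree ξ u := by
      cases hN with
      | root => exact inTree_nil ξ
      | visit _ _ _ hv => exact (mem_ball.1 hv).1
    have hvt : InTree ξ v := by
      have := (hω u hut i).2.1 n
      rwa [hn] at this
    refine ⟨max N v.length, ActIn.visit (hN.mono ?_) hi hn (mem_ball.2 ⟨hvt, le_max_right _ _⟩)⟩
    exact_mod_cast ball_mono ξ (le_max_left _ _)

lemma card_le_visitCount {ξ : Vertex → ℕ} {ω : Config} (hω : GoodPaths ξ ω)
    (Fs : Finset (Vertex × ℕ)) (hFs : (Fs : Set (Vertex × ℕ)) ⊆ rootVisitors ω) :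
    (Fs.card : ℝ≥0∞) ≤ ⨆ N, visitCount ξ N ω := by
  classical
  -- a common ball
  have h1 : ∀ q ∈ Fs, ∃ N, ActIn (ball ξ N) ω q.1 := fun q hq =>
    exists_actIn hω (hFs hq).1
  choose! Nq hNq using h1
  set N := Fs.sup Nq with hN
  have h2 : ∀ q ∈ Fs, ActIn (ball ξ N) ω q.1 := fun q hq =>
    (hNq q hq).mono (by exact_mod_cast ball_mono ξ (Finset.le_sup hq))
  have h3 : ∀ q ∈ Fs, q.1 ∈ ball ξ N := fun q hq => (h2 q hq).mem_ball
  refine le_trans ?_ (le_iSup _ N)
  set b : Vertex × ℕ → ℝ≥0∞ := fun q => {ω | ActIn (ball ξ N) ω q.1}.indicator 1 ω *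
    (if q.2 < cnt q.1 (ω q.1).1 then {x | hits x}.indicator 1 ((ω q.1).2 q.2) else 0) with hb
  have h4 : ∀ q ∈ Fs, b q = 1 := by
    intro q hq
    obtain ⟨-, hq2, hq3⟩ := hFs hq
    simp only [hb]
    rw [indicator_of_mem (by exact h2 q hq), if_pos (by exact hq2),
      indicator_of_mem (by exact hq3)]
    simp
  calc (Fs.card : ℝ≥0∞) = ∑ q ∈ Fs, b q := by
        rw [Finset.sum_congr rfl h4]; simp
    _ ≤ ∑ q ∈ (ball ξ N) ×ˢ (Fs.image Prod.snd), b q := by
        refine Finset.sum_le_sum_of_subset fun q hq => ?_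
        rw [Finset.mem_product]
        exact ⟨h3 q hq, Finset.mem_image_of_mem _ hq⟩
    _ = ∑ y ∈ ball ξ N, ∑ i ∈ Fs.image Prod.snd, b (y, i) := Finset.sum_product _ _ _
    _ ≤ visitCount ξ N ω := by
        unfold visitCount frogSum
        refine Finset.sum_le_sum fun y _ => ?_
        simp only [hb]
        rw [← Finset.mul_sum]
        gcongr
        exact ENNReal.sum_le_tsum _

theorem transient_of_bound (lam : ℝ≥0) {ξ : Vertex → ℕ}
    (hne : ∀ v, InTree ξ v → (nbrs ξ v).Nonempty) {s0 K : ℝ≥0∞} (hs0 : s0 ≠ 0) (hK : K ≠ ∞)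
    (hb : ∀ N, s0 * ∫⁻ ω, visitCount ξ N ω ∂(frogMeasure lam ξ) ≤ K) : Transient lam ξ := by
  unfold Transient
  have h1 : s0 * ∫⁻ ω, ⨆ N, visitCount ξ N ω ∂(frogMeasure lam ξ) ≤ K := by
    rw [lintegral_iSup (fun N => measurable_visitCount ξ N)
      (fun m n hmn ω => visitCount_mono ξ ω hmn), ENNReal.mul_iSup]
    exact iSup_le hb
  have h2 : ∫⁻ ω, ⨆ N, visitCount ξ N ω ∂(frogMeasure lam ξ) ≠ ∞ := by
    intro h
    rw [h, ENNReal.mul_top hs0] at h1
    exact hK (top_le_iff.1 h1)
  have h3 : ∀ᵐ ω ∂(frogMeasure lam ξ), ⨆ N, visitCount ξ N ω < ∞ :=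
    ae_lt_top (Measurable.iSup fun N => measurable_visitCount ξ N) h2
  filter_upwards [h3, goodPaths_ae lam hne] with ω hω hgood
  by_contra hinf
  have hinf' : (rootVisitors ω).Infinite := hinf
  obtain ⟨M, hM⟩ := ENNReal.exists_nat_gt hω.ne
  obtain ⟨Fs, hFs, hcard⟩ := hinf'.exists_subset_card_eq M
  have := card_le_visitCount hgood Fs hFs
  rw [hcard] at this
  exact absurd (this.trans_lt hM) (lt_irrefl _)

end Pool.Agent.Helper97.Frog
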