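import Pool.Agent.Helper97.Frog.Branch
import Pool.Agent.Helper97.Frog.Quenched

open MeasureTheory ProbabilityTheory Set Filter
open scoped ENNReal NNReal Topology

namespace Pool.Agent.Helper97.Frog

/-! ### The function `x / (1 + x)` -/

/-- The function `x / (1 + x)`. -/
noncomputable def gg (x : ℝ) : ℝ := x / (1 + x)

lemma gg_eq {x : ℝ} (hx : 0 ≤ x) : gg x = 1 - 1 / (1 + x) := by
  unfold gg
  have : (1 + x) ≠ 0 := by positivity
  field_simp
  ring

lemma gg_nonneg {x : ℝ} (hx : 0 ≤ x) : 0 ≤ gg x := by unfold gg; positivity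

lemma gg_le_one {x : ℝ} (hx : 0 ≤ x) : gg x ≤ 1 := by
  rw [gg_eq hx]
  have : 0 ≤ 1 / (1 + x) := by positivity
  linarith

lemma gg_mono {x y : ℝ} (hx : 0 ≤ x) (hxy : x ≤ y) : gg x ≤ gg y := by
  rw [gg_eq hx, gg_eq (hx.trans hxy)]
  have : 1 / (1 + y) ≤ 1 / (1 + x) := one_div_le_one_div_of_le (by positivity) (by linarith)
  linarith

lemma gg_eq_zero {x : ℝ} (hx : 0 ≤ x) : gg x = 0 ↔ x = 0 := by
  unfold gg
  have : (1 + x) ≠ 0 := by positivity
  rw [div_eq_zero_iff]
  simp [this]

lemma continuousAt_gg {x : ℝ} (hx : 0 ≤ x) : ContinuousAt gg x := by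
  unfold gg
  have : (1 + x) ≠ 0 := by positivity
  fun_prop (disch := assumption)

lemma measurable_gg : Measurable gg := by unfold gg; fun_prop

lemma gg_ge {x δ : ℝ} (hx : 0 ≤ x) (hδ : 0 < δ) : (1 - δ) * min x δ ≤ gg x := by
  rcases le_total x δ with h | h
  · rw [min_eq_left h]
    unfold gg
    rw [le_div_iff₀ (by positivity)]
    nlinarith [mul_nonneg hx (sub_nonneg.2 h), mul_nonneg hx hx, mul_nonneg hδ.le hx]
  · rw [min_eq_right h]
    refine le_trans ?_ (gg_mono hδ.le h)
    unfold gg
    rw [le_div_iff₀ (by positivity)]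
    nlinarith [mul_pos hδ hδ, mul_pos (mul_pos hδ hδ) hδ]

/-! ### Truncated conductances -/

lemma measurable_children_sum {β : Type*} [AddCommMonoid β] [MeasurableSpace β] [MeasurableAdd₂ β]
    {F : (Vertex → ℕ) → β} (hF : Measurable F) :
    Measurable fun ξ : Vertex → ℕ => ∑ i ∈ Finset.range (ξ []), F (sh i ξ) := by
  have h1 : Measurable fun q : ℕ × (ℕ → Vertex → ℕ) => ∑ i ∈ Finset.range q.1, F (q.2 i) := by
    refine measurable_from_prod_countable_right fun k => ?_
    show Measurable fun ζ : ℕ → Vertex → ℕ => ∑ i ∈ Finset.range k, F (ζ i)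
    exact Finset.measurable_sum _ fun i _ => hF.comp (measurable_pi_apply i)
  have h2 : Measurable fun ξ : Vertex → ℕ => (ξ [], fun i => sh i ξ) :=
    (measurable_pi_apply []).prodMk (measurable_pi_iff.2 fun i => measurable_sh i)
  exact h1.comp h2

lemma measurable_children_prod {F : (Vertex → ℕ) → ℝ≥0∞} (hF : Measurable F) :
    Measurable fun ξ : Vertex → ℕ => ∏ i ∈ Finset.range (ξ []), F (sh i ξ) := by
  have h1 : Measurable fun q : ℕ × (ℕ → Vertex → ℕ) => ∏ i ∈ Finset.range q.1, F (q.2 i) := by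
    refine measurable_from_prod_countable_right fun k => ?_
    show Measurable fun ζ : ℕ → Vertex → ℕ => ∏ i ∈ Finset.range k, F (ζ i)
    exact Finset.measurable_prod _ fun i _ => hF.comp (measurable_pi_apply i)
  have h2 : Measurable fun ξ : Vertex → ℕ => (ξ [], fun i => sh i ξ) :=
    (measurable_pi_apply []).prodMk (measurable_pi_iff.2 fun i => measurable_sh i)
  exact h1.comp h2

lemma lintegral_affine {α : Type*} [MeasurableSpace α] (μ : Measure α) [IsProbabilityMeasure μ]
    {Q : α → ℝ≥0∞} (hQ : Measurable Q) (a b c : ℝ≥0∞) :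
    ∫⁻ x, (a * (Q x + b) + c) ∂μ = a * (∫⁻ x, Q x ∂μ + b) + c := by
  rw [lintegral_add_right _ measurable_const, lintegral_const_mul _ (hQ.add_const b),
    lintegral_add_right _ measurable_const]
  simp

/-- `Gn n ξ` is the probability that a walk leaving the root of the tree `ξ` towards an additional
vertex attached to the root ... (up to the truncation at height `n`); only the recursion matters:
`Gn 0 = 1` and `Gn (n + 1) ξ = gg (∑ Gn n (subtrees))`. -/
noncomputable def Gn : ℕ → (Vertex → ℕ) → ℝ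
  | 0, _ => 1
  | n + 1, ξ => gg (∑ i ∈ Finset.range (ξ []), Gn n (sh i ξ))

lemma Gn_nonneg (n : ℕ) (ξ : Vertex → ℕ) : 0 ≤ Gn n ξ := by
  induction n generalizing ξ with
  | zero => exact zero_le_one
  | succ n ih => exact gg_nonneg (Finset.sum_nonneg fun i _ => ih _)

lemma Gn_le_one (n : ℕ) (ξ : Vertex → ℕ) : Gn n ξ ≤ 1 := by
  cases n with
  | zero => exact le_rfl
  | succ n => exact gg_le_one (Finset.sum_nonneg fun i _ => Gn_nonneg n _)

lemma measurable_Gn (n : ℕ) : Measurable (Gn n) := by
  induction n with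
  | zero => exact measurable_const
  | succ n ih => exact measurable_gg.comp (measurable_children_sum ih)

lemma Gn_succ_le (n : ℕ) (ξ : Vertex → ℕ) : Gn (n + 1) ξ ≤ Gn n ξ := by
  induction n generalizing ξ with
  | zero => exact Gn_le_one 1 ξ
  | succ n ih =>
    exact gg_mono (Finset.sum_nonneg fun i _ => Gn_nonneg _ _) (Finset.sum_le_sum fun i _ => ih _)

lemma antitone_Gn (ξ : Vertex → ℕ) : Antitone fun n => Gn n ξ :=
  antitone_nat_of_succ_le fun n => Gn_succ_le n ξ

/-- The limit of the truncated quantities. -/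
noncomputable def G (ξ : Vertex → ℕ) : ℝ := ⨅ n, Gn n ξ

lemma bddBelow_Gn (ξ : Vertex → ℕ) : BddBelow (range fun n => Gn n ξ) :=
  ⟨0, by rintro _ ⟨n, rfl⟩; exact Gn_nonneg n ξ⟩

lemma tendsto_Gn (ξ : Vertex → ℕ) : Tendsto (fun n => Gn n ξ) atTop (𝓝 (G ξ)) :=
  tendsto_atTop_ciInf (antitone_Gn ξ) (bddBelow_Gn ξ)

lemma G_nonneg (ξ : Vertex → ℕ) : 0 ≤ G ξ := le_ciInf fun n => Gn_nonneg n ξ

lemma G_le_one (ξ : Vertex → ℕ) : G ξ ≤ 1 := (ciInf_le (bddBelow_Gn ξ) 0).trans (Gn_le_one 0 ξ)

lemma measurable_G : Measurable G := Measurable.iInf fun n => measurable_Gn n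

/-- The effective conductance from the root of `ξ` to infinity. -/
noncomputable def D (ξ : Vertex → ℕ) : ℝ := ∑ i ∈ Finset.range (ξ []), G (sh i ξ)

lemma D_nonneg (ξ : Vertex → ℕ) : 0 ≤ D ξ := Finset.sum_nonneg fun _ _ => G_nonneg _

lemma measurable_D : Measurable D := measurable_children_sum measurable_G

lemma G_eq (ξ : Vertex → ℕ) : G ξ = gg (D ξ) := by
  have h1 : Tendsto (fun n => Gn (n + 1) ξ) atTop (𝓝 (G ξ)) :=
    (tendsto_Gn ξ).comp (tendsto_add_atTop_nat 1)
  have h2 : Tendsto (fun n => Gn (n + 1) ξ) atTop (𝓝 (gg (D ξ))) := by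
    refine (continuousAt_gg (D_nonneg ξ)).tendsto.comp ?_
    exact tendsto_finsetSum _ fun i _ => tendsto_Gn _
  exact tendsto_nhds_unique h1 h2

lemma G_eq_zero_iff (ξ : Vertex → ℕ) :
    G ξ = 0 ↔ ∀ i ∈ Finset.range (ξ []), G (sh i ξ) = 0 := by
  rw [G_eq, gg_eq_zero (D_nonneg ξ), D, Finset.sum_eq_zero_iff_of_nonneg fun i _ => G_nonneg _]

/-! ### The probability that `G = 0` -/

variable (p : Measure ℕ) [IsProbabilityMeasure p]

lemma measurableSet_G0 : MeasurableSet {ξ | G ξ = 0} := measurable_G (measurableSet_singleton 0)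

/-- The probability of `{G = 0}`. -/
noncomputable def q0 : ℝ≥0∞ := galtonWatson p {ξ | G ξ = 0}

lemma gf_q0 : gf p (q0 p) = q0 p := by
  have h1 := lintegral_prod_children p (z := {ξ | G ξ = 0}.indicator 1)
    (measurable_one.indicator measurableSet_G0)
  rw [lintegral_indicator_one measurableSet_G0] at h1
  rw [q0, ← h1, ← lintegral_indicator_one measurableSet_G0]
  refine lintegral_congr fun ξ => ?_
  by_cases h : G ξ = 0
  · rw [indicator_of_mem (by exact h), Finset.prod_eq_one]
    · rfl
    · intro i hi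
      have := (G_eq_zero_iff ξ).1 h i hi
      rw [indicator_of_mem (by exact this)]; rfl
  · rw [indicator_of_notMem (by exact h)]
    have h2 : ¬ ∀ i ∈ Finset.range (ξ []), G (sh i ξ) = 0 := fun h' => h ((G_eq_zero_iff ξ).2 h')
    push Not at h2
    obtain ⟨i, hi, hi'⟩ := h2
    rw [Finset.prod_eq_zero hi]
    rw [indicator_of_notMem (by exact hi')]

/-- The supercritical Galton-Watson tree is transient with positive probability. -/
lemma q0_lt_one (hp : 1 < ∫⁻ k, (k : ℝ≥0∞) ∂p) : q0 p < 1 := by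
  obtain ⟨y, hy1, hy2, hy3⟩ := exists_gf_lt p hp (x := 0) one_pos
  have hy0 : 0 < y := (le_max_right _ _).trans_lt hy1
  set g : ℝ := (gf p (ENNReal.ofReal y)).toReal with hg
  have hg0 : 0 ≤ g := ENNReal.toReal_nonneg
  have hgt : gf p (ENNReal.ofReal y) ≠ ∞ := ne_top_of_lt hy3
  have hgy : gf p (ENNReal.ofReal y) = ENNReal.ofReal g := (ENNReal.ofReal_toReal hgt).symm
  have hgl : g < y := by
    rw [hgy] at hy3
    exact (ENNReal.ofReal_lt_ofReal_iff hy0).1 hy3
  set Δ : ℝ := y - g with hΔ
  have hΔ0 : 0 < Δ := by simp only [hΔ]; linarith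
  have hΔy : Δ ≤ y := by simp only [hΔ]; linarith
  set δ : ℝ := Δ / 2 with hδ
  have hδ0 : 0 < δ := by positivity
  have hδ1 : δ < 1 := by simp only [hδ]; linarith
  -- choice of `t`
  obtain ⟨t, ht0, ht1, ht2⟩ : ∃ t : ℝ, 0 < t ∧ Real.exp (-(t * δ)) ≤ Δ / 2 ∧ Real.exp (-t) ≤ y := by
    have h1 : Tendsto (fun t : ℝ => Real.exp (-(t * δ))) atTop (𝓝 0) :=
      Real.tendsto_exp_neg_atTop_nhds_zero.comp (tendsto_id.atTop_mul_const hδ0)
    have h2 : Tendsto (fun t : ℝ => Real.exp (-t)) atTop (𝓝 0) :=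
      Real.tendsto_exp_neg_atTop_nhds_zero
    have h3 := ((h1.eventually (gt_mem_nhds (show (0 : ℝ) < Δ / 2 by positivity))).and
      (h2.eventually (gt_mem_nhds hy0))).and (eventually_gt_atTop 0)
    obtain ⟨t, ⟨h4, h5⟩, h6⟩ := h3.exists
    exact ⟨t, h6, le_of_lt h4, le_of_lt h5⟩
  -- the Laplace transforms
  have hL : ∀ n : ℕ, ∫⁻ ξ, ENNReal.ofReal (Real.exp (-(t * Gn n ξ))) ∂(galtonWatson p) ≤
      ENNReal.ofReal y := by
    intro n
    induction n with
    | zero =>
      simp only [Gn, mul_one, lintegral_const, measure_univ]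
      exact ENNReal.ofReal_le_ofReal ht2
    | succ n ih =>
      have hpt : ∀ ξ : Vertex → ℕ, ENNReal.ofReal (Real.exp (-(t * Gn (n + 1) ξ))) ≤
          ENNReal.ofReal (1 - δ) * (∏ i ∈ Finset.range (ξ []),
            ENNReal.ofReal (Real.exp (-(t * Gn n (sh i ξ)))) + ENNReal.ofReal (Δ / 2)) +
            ENNReal.ofReal δ := by
        intro ξ
        set S := ∑ i ∈ Finset.range (ξ []), Gn n (sh i ξ) with hS
        have hS0 : 0 ≤ S := Finset.sum_nonneg fun i _ => Gn_nonneg _ _
        have h1 : ∏ i ∈ Finset.range (ξ []), ENNReal.ofReal (Real.exp (-(t * Gn n (sh i ξ)))) =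
            ENNReal.ofReal (Real.exp (-(t * S))) := by
          rw [← ENNReal.ofReal_prod_of_nonneg fun i _ => (Real.exp_pos _).le, ← Real.exp_sum]
          congr 2
          rw [hS, Finset.sum_neg_distrib, Finset.mul_sum]
        rw [h1, ← ENNReal.ofReal_add (Real.exp_pos _).le (by positivity),
          ← ENNReal.ofReal_mul (by linarith), ← ENNReal.ofReal_add (by
            have := (Real.exp_pos (-(t * S))).le
            have h2 : 0 ≤ 1 - δ := by linarith
            positivity) hδ0.le]
        apply ENNReal.ofReal_le_ofReal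
        show Real.exp (-(t * gg S)) ≤ _
        set m := min S δ with hm
        have hm0 : 0 ≤ m := le_min hS0 hδ0.le
        have h2 : Real.exp (-(t * gg S)) ≤ Real.exp ((1 - δ) * (-(t * m)) + δ * 0) := by
          apply Real.exp_le_exp.2
          have := gg_ge hS0 hδ0
          nlinarith
        have h3 : Real.exp ((1 - δ) * (-(t * m)) + δ * 0) ≤
            (1 - δ) * Real.exp (-(t * m)) + δ * Real.exp 0 := by
          have := convexOn_exp.2 (mem_univ (-(t * m))) (mem_univ (0 : ℝ))
            (show 0 ≤ 1 - δ by linarith) hδ0.le (by ring)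
          simpa only [smul_eq_mul] using this
        have h4 : Real.exp (-(t * m)) ≤ Real.exp (-(t * S)) + Δ / 2 := by
          rcases le_total S δ with h | h
          · rw [hm, min_eq_left h]; linarith
          · rw [hm, min_eq_right h]
            have := (Real.exp_pos (-(t * S))).le
            linarith
        rw [Real.exp_zero, mul_one] at h3
        have h5 : (1 - δ) * Real.exp (-(t * m)) ≤ (1 - δ) * (Real.exp (-(t * S)) + Δ / 2) :=
          mul_le_mul_of_nonneg_left h4 (by linarith)
        linarith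
      have hz : Measurable fun ξ : Vertex → ℕ => ENNReal.ofReal (Real.exp (-(t * Gn n ξ))) :=
        ((Real.measurable_exp.comp ((measurable_Gn n).const_mul t).neg)).ennreal_ofReal
      refine (lintegral_mono hpt).trans ?_
      rw [lintegral_affine (galtonWatson p) (measurable_children_prod hz),
        lintegral_prod_children p hz]
      calc ENNReal.ofReal (1 - δ) * (gf p (∫⁻ ξ, ENNReal.ofReal (Real.exp (-(t * Gn n ξ)))
              ∂(galtonWatson p)) + ENNReal.ofReal (Δ / 2)) + ENNReal.ofReal δ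
          ≤ ENNReal.ofReal (1 - δ) * (ENNReal.ofReal g + ENNReal.ofReal (Δ / 2)) +
              ENNReal.ofReal δ := by
            gcongr
            rw [← hgy]; exact gf_mono p ih
        _ = ENNReal.ofReal ((1 - δ) * (g + Δ / 2) + δ) := by
            rw [← ENNReal.ofReal_add hg0 (by positivity), ← ENNReal.ofReal_mul (by linarith),
              ← ENNReal.ofReal_add (mul_nonneg (by linarith) (by positivity)) hδ0.le]
        _ ≤ ENNReal.ofReal y := by
            apply ENNReal.ofReal_le_ofReal
            have hgΔ : g = y - Δ := by simp only [hΔ]; ring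
            rw [hgΔ, hδ]
            nlinarith
  -- pass to the limit
  have hfin : q0 p ≤ ENNReal.ofReal y := by
    rw [q0, ← lintegral_indicator_one measurableSet_G0]
    calc ∫⁻ ξ, {ξ | G ξ = 0}.indicator 1 ξ ∂(galtonWatson p)
        ≤ ∫⁻ ξ, liminf (fun n => ENNReal.ofReal (Real.exp (-(t * Gn n ξ)))) atTop
            ∂(galtonWatson p) := by
          refine lintegral_mono fun ξ => ?_
          by_cases h : G ξ = 0
          · rw [indicator_of_mem (by exact h)]
            have h1 : Tendsto (fun n => ENNReal.ofReal (Real.exp (-(t * Gn n ξ)))) atTop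
                (𝓝 (ENNReal.ofReal (Real.exp (-(t * G ξ))))) := by
              refine (ENNReal.continuous_ofReal.tendsto _).comp ?_
              exact (Real.continuous_exp.tendsto _).comp ((tendsto_Gn ξ).const_mul t).neg
            rw [h1.liminf_eq, h]
            simp
          · rw [indicator_of_notMem (by exact h)]
            exact zero_le
      _ ≤ liminf (fun n => ∫⁻ ξ, ENNReal.ofReal (Real.exp (-(t * Gn n ξ)))
            ∂(galtonWatson p)) atTop := by
          refine lintegral_liminf_le fun n => ?_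
          exact ((Real.measurable_exp.comp ((measurable_Gn n).const_mul t).neg)).ennreal_ofReal
      _ ≤ ENNReal.ofReal y := by
          refine liminf_le_of_frequently_le' ?_
          exact Frequently.of_forall hL
  refine hfin.trans_lt ?_
  rw [← ENNReal.ofReal_one]
  exact (ENNReal.ofReal_lt_ofReal_iff one_pos).2 hy2

lemma q0_ne_top : q0 p ≠ ∞ := measure_ne_top _ _

/-- Right of `q0` the derivative of the generating function is still smaller than `1`. -/
lemma exists_right_of_q0 (hp : 1 < ∫⁻ k, (k : ℝ≥0∞) ∂p) :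
    ∃ x₁ : ℝ, (q0 p).toReal < x₁ ∧ x₁ < 1 ∧ gf' p (ENNReal.ofReal x₁) < 1 := by
  have h1 : ENNReal.ofReal (q0 p).toReal = q0 p := ENNReal.ofReal_toReal (q0_ne_top p)
  refine exists_gf'_lt p hp ENNReal.toReal_nonneg ?_ (by rw [h1]; exact gf_q0 p)
  have := (ENNReal.toReal_lt_toReal (q0_ne_top p) ENNReal.one_ne_top).2 (q0_lt_one p hp)
  simpa using this

/-! ### On survival, `G > 0` -/

lemma inTree_cons {ξ : Vertex → ℕ} {i : ℕ} {v : Vertex} :
    InTree ξ (i :: v) ↔ i < ξ [] ∧ InTree (sh i ξ) v := by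
  constructor
  · intro h
    refine ⟨h [] i (by simp), fun u j hj => ?_⟩
    exact h (i :: u) j (by simpa using hj)
  · rintro ⟨h1, h2⟩ u j hj
    cases u with
    | nil =>
      simp only [List.nil_append, List.cons_prefix_cons] at hj
      rw [hj.1]; exact h1
    | cons a u =>
      simp only [List.cons_append, List.cons_prefix_cons] at hj
      rw [hj.1]
      exact h2 u j hj.2

/-- The trees which have a vertex at height `n`. -/
def alive : ℕ → Set (Vertex → ℕ)
  | 0 => univ
  | n + 1 => {ξ | ∃ i < ξ [], sh i ξ ∈ alive n}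

lemma mem_alive {n : ℕ} {ξ : Vertex → ℕ} : ξ ∈ alive n ↔ ∃ v, InTree ξ v ∧ v.length = n := by
  induction n generalizing ξ with
  | zero =>
    constructor
    · intro _; exact ⟨[], inTree_nil ξ, rfl⟩
    · intro _; trivial
  | succ n ih =>
    constructor
    · rintro ⟨i, hi, h⟩
      obtain ⟨v, hv1, hv2⟩ := ih.1 h
      exact ⟨i :: v, inTree_cons.2 ⟨hi, hv1⟩, by simp [hv2]⟩
    · rintro ⟨v, hv1, hv2⟩
      cases v with
      | nil => simp at hv2
      | cons i v =>
        obtain ⟨h1, h2⟩ := inTree_cons.1 hv1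
        exact ⟨i, h1, ih.2 ⟨v, h2, by simpa using hv2⟩⟩

lemma measurableSet_alive (n : ℕ) : MeasurableSet (alive n) := by
  induction n with
  | zero => exact MeasurableSet.univ
  | succ n ih =>
    have e : alive (n + 1) = ⋃ i : ℕ, {ξ : Vertex → ℕ | i < ξ []} ∩ (sh i) ⁻¹' (alive n) := by
      ext ξ
      simp only [alive, mem_ofPred_eq, mem_iUnion, mem_inter_iff, mem_preimage]
    rw [e]
    exact MeasurableSet.iUnion fun i =>
      (measurableSet_lt measurable_const (measurable_pi_apply [])).inter (measurable_sh i ih)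

lemma survives_eq : Survives = ⋂ n, alive n := by
  ext ξ
  simp only [Survives, mem_ofPred_eq, mem_iInter]
  constructor
  · intro h n
    by_contra hn
    have hsub : {v | InTree ξ v} ⊆ (ball ξ n : Set Vertex) := by
      intro v hv
      have hv' : InTree ξ v := hv
      rw [Finset.mem_coe, mem_ball]
      refine ⟨hv', ?_⟩
      by_contra hlen
      rw [not_le] at hlen
      exact hn (mem_alive.2 ⟨v.take n, hv'.of_isPrefix (List.take_prefix n v), by
        rw [List.length_take]; omega⟩)
    exact h ((ball ξ n).finite_toSet.subset hsub)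
  · intro h hfin
    have hb : BddAbove (List.length '' {v | InTree ξ v}) := (hfin.image _).bddAbove
    obtain ⟨M, hM⟩ := hb
    obtain ⟨v, hv1, hv2⟩ := mem_alive.1 (h (M + 1))
    have := hM ⟨v, hv1, rfl⟩
    omega

lemma measurableSet_survives : MeasurableSet Survives := by
  rw [survives_eq]
  exact MeasurableSet.iInter measurableSet_alive

lemma measure_G0_alive (n : ℕ) :
    galtonWatson p ({ξ | G ξ = 0} ∩ alive n) ≤ (gf' p (q0 p)) ^ n := by
  induction n with
  | zero => simpa using prob_le_one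
  | succ n ih =>
    have hm1 : MeasurableSet ({ξ | G ξ = 0} ∩ alive n) :=
      measurableSet_G0.inter (measurableSet_alive n)
    have h1 := lintegral_sum_children p (a := ({ξ | G ξ = 0} ∩ alive n).indicator 1)
      (z := {ξ | G ξ = 0}.indicator 1) (measurable_one.indicator hm1)
      (measurable_one.indicator measurableSet_G0)
    rw [lintegral_indicator_one hm1, lintegral_indicator_one measurableSet_G0] at h1
    calc galtonWatson p ({ξ | G ξ = 0} ∩ alive (n + 1))
        = ∫⁻ ξ, ({ξ | G ξ = 0} ∩ alive (n + 1)).indicator 1 ξ ∂(galtonWatson p) :=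
          (lintegral_indicator_one (measurableSet_G0.inter (measurableSet_alive _))).symm
      _ ≤ ∫⁻ ξ, ∑ i ∈ Finset.range (ξ []), ({ξ | G ξ = 0} ∩ alive n).indicator 1 (sh i ξ) *
            ∏ j ∈ (Finset.range (ξ [])).erase i, {ξ | G ξ = 0}.indicator 1 (sh j ξ)
            ∂(galtonWatson p) := by
          refine lintegral_mono fun ξ => ?_
          by_cases h : ξ ∈ {ξ | G ξ = 0} ∩ alive (n + 1)
          · rw [indicator_of_mem h]
            obtain ⟨hG, i, hi, hal⟩ := h
            have hG' := (G_eq_zero_iff ξ).1 hG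
            have hi' : i ∈ Finset.range (ξ []) := Finset.mem_range.2 hi
            have h2 : ({ξ | G ξ = 0} ∩ alive n).indicator (1 : (Vertex → ℕ) → ℝ≥0∞) (sh i ξ) *
                ∏ j ∈ (Finset.range (ξ [])).erase i,
                  {ξ | G ξ = 0}.indicator (1 : (Vertex → ℕ) → ℝ≥0∞) (sh j ξ) = 1 := by
              rw [indicator_of_mem (show sh i ξ ∈ {ξ | G ξ = 0} ∩ alive n from ⟨hG' i hi', hal⟩),
                Finset.prod_eq_one]
              · simp
              · intro j hj
                rw [indicator_of_mem (by exact hG' j (Finset.mem_of_mem_erase hj))]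
                rfl
            have h3 := Finset.single_le_sum (f := fun i =>
              ({ξ | G ξ = 0} ∩ alive n).indicator (1 : (Vertex → ℕ) → ℝ≥0∞) (sh i ξ) *
                ∏ j ∈ (Finset.range (ξ [])).erase i,
                  {ξ | G ξ = 0}.indicator (1 : (Vertex → ℕ) → ℝ≥0∞) (sh j ξ))
              (fun _ _ => zero_le) hi'
            simp only [h2] at h3
            exact h3
          · rw [indicator_of_notMem h]
            exact zero_le
      _ = galtonWatson p ({ξ | G ξ = 0} ∩ alive n) * gf' p (q0 p) := h1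
      _ ≤ (gf' p (q0 p)) ^ n * gf' p (q0 p) := mul_le_mul_left ih _
      _ = (gf' p (q0 p)) ^ (n + 1) := (pow_succ _ _).symm

lemma gf'_q0_lt_one (hp : 1 < ∫⁻ k, (k : ℝ≥0∞) ∂p) : gf' p (q0 p) < 1 := by
  obtain ⟨x₁, h1, -, h3⟩ := exists_right_of_q0 p hp
  refine lt_of_le_of_lt (gf'_mono p ?_) h3
  rw [← ENNReal.ofReal_toReal (q0_ne_top p)]
  exact ENNReal.ofReal_le_ofReal h1.le

theorem ae_survives_G_pos (hp : 1 < ∫⁻ k, (k : ℝ≥0∞) ∂p) :
    ∀ᵐ ξ ∂(galtonWatson p), ξ ∈ Survives → 0 < G ξ := by
  have h0 : galtonWatson p ({ξ | G ξ = 0} ∩ Survives) = 0 := by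
    refine le_antisymm ?_ zero_le
    have hlim : Tendsto (fun n : ℕ => (gf' p (q0 p)) ^ n) atTop (𝓝 0) :=
      ENNReal.tendsto_pow_atTop_nhds_zero_of_lt_one (gf'_q0_lt_one p hp)
    refine ge_of_tendsto' hlim fun n => ?_
    refine (measure_mono ?_).trans (measure_G0_alive p n)
    rw [survives_eq]
    exact inter_subset_inter_right _ (iInter_subset _ n)
  rw [ae_iff]
  refine measure_mono_null ?_ h0
  intro ξ hξ
  have hξ' : ¬ (ξ ∈ Survives → 0 < G ξ) := hξ
  push Not at hξ'
  exact ⟨le_antisymm hξ'.2 (G_nonneg ξ), hξ'.1⟩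

end Pool.Agent.Helper97.Frog
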