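import Pool.Agent.Helper97.Frog.Conduct

open MeasureTheory ProbabilityTheory Set Filter
open scoped ENNReal NNReal Topology

namespace Pool.Agent.Helper97.Frog

/-! ### The slack function -/

/-- The slack function `ψ(x) = (√(1+x) - 1)²/2 = 1 + x/2 - √(1+x)`. -/
noncomputable def psi (x : ℝ) : ℝ := 1 + x / 2 - √(1 + x)

lemma psi_eq {x : ℝ} (hx : 0 ≤ x) : psi x = (√(1 + x) - 1) ^ 2 / 2 := by
  unfold psi
  have h := Real.sq_sqrt (show 0 ≤ 1 + x by linarith)
  nlinarith

lemma psi_nonneg {x : ℝ} (hx : 0 ≤ x) : 0 ≤ psi x := by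
  rw [psi_eq hx]; positivity

lemma psi_zero : psi 0 = 0 := by simp [psi]

lemma psi_pos {x : ℝ} (hx : 0 < x) : 0 < psi x := by
  rw [psi_eq hx.le]
  have h1 : 1 < √(1 + x) := by
    rw [Real.lt_sqrt (by norm_num)]
    linarith
  have h2 : 0 < √(1 + x) - 1 := by linarith
  positivity

lemma psi_add {x y : ℝ} (hx : 0 ≤ x) (hy : 0 ≤ y) : psi x + psi y ≤ psi (x + y) := by
  unfold psi
  set a := √(1 + x) with ha
  set b := √(1 + y) with hb
  have ha2 : a ^ 2 = 1 + x := Real.sq_sqrt (by linarith)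
  have hb2 : b ^ 2 = 1 + y := Real.sq_sqrt (by linarith)
  have ha1 : 1 ≤ a := by rw [ha, Real.one_le_sqrt]; linarith
  have hb1 : 1 ≤ b := by rw [hb, Real.one_le_sqrt]; linarith
  have h : √(1 + (x + y)) ≤ a + b - 1 := by
    rw [Real.sqrt_le_left (by linarith)]
    nlinarith [mul_nonneg (sub_nonneg.2 ha1) (sub_nonneg.2 hb1)]
  linarith

lemma psi_sum (s : Finset ℕ) {x : ℕ → ℝ} (hx : ∀ i, 0 ≤ x i) :
    ∑ i ∈ s, psi (x i) ≤ psi (∑ i ∈ s, x i) := by
  classical
  induction s using Finset.induction_on with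
  | empty => simp [psi_zero]
  | insert i s hi ih =>
    rw [Finset.sum_insert hi, Finset.sum_insert hi]
    have := psi_add (hx i) (Finset.sum_nonneg fun j (_ : j ∈ s) => hx j)
    linarith

lemma measurable_psi : Measurable psi := by unfold psi; fun_prop

/-! ### An algebraic inequality -/

lemma prod_sub_prod_le (s : Finset ℕ) {a b : ℕ → ℝ} (ha : ∀ i, 0 ≤ a i) (hb : ∀ i, 0 ≤ b i)
    (hb1 : ∀ i, b i ≤ 1) :
    ∏ i ∈ s, ((1 + a i) * b i) - ∏ i ∈ s, b i ≤
      ∑ i ∈ s, a i * ∏ j ∈ s.erase i, (a j + b j) := by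
  classical
  induction s using Finset.induction_on with
  | empty => simp
  | insert k s hk ih =>
    have hX : ∏ i ∈ s, ((1 + a i) * b i) ≤ ∏ i ∈ s, (a i + b i) := by
      refine Finset.prod_le_prod (fun i _ => mul_nonneg (by linarith [ha i]) (hb i)) fun i _ => ?_
      nlinarith [mul_nonneg (ha i) (sub_nonneg.2 (hb1 i))]
    have hX0 : 0 ≤ ∏ i ∈ s, ((1 + a i) * b i) :=
      Finset.prod_nonneg fun i _ => mul_nonneg (by linarith [ha i]) (hb i)
    have hR0 : 0 ≤ ∑ i ∈ s, a i * ∏ j ∈ s.erase i, (a j + b j) :=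
      Finset.sum_nonneg fun i _ => mul_nonneg (ha i)
        (Finset.prod_nonneg fun j _ => by linarith [ha j, hb j])
    rw [Finset.prod_insert hk, Finset.prod_insert hk, Finset.sum_insert hk,
      Finset.erase_insert hk]
    have h1 : ∑ i ∈ s, a i * ∏ j ∈ (insert k s).erase i, (a j + b j) =
        (a k + b k) * ∑ i ∈ s, a i * ∏ j ∈ s.erase i, (a j + b j) := by
      rw [Finset.mul_sum]
      refine Finset.sum_congr rfl fun i hi => ?_
      have hik : k ≠ i := fun h => hk (h ▸ hi)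
      rw [Finset.erase_insert_of_ne hik, Finset.prod_insert (by
        intro h; exact hk (Finset.mem_of_mem_erase h))]
      ring
    rw [h1]
    set X := ∏ i ∈ s, ((1 + a i) * b i) with hXd
    set B := ∏ i ∈ s, b i with hBd
    set Z := ∏ i ∈ s, (a i + b i) with hZd
    set R := ∑ i ∈ s, a i * ∏ j ∈ s.erase i, (a j + b j) with hRd
    have h2 : b k * (X - B) ≤ b k * R := mul_le_mul_of_nonneg_left ih (hb k)
    have h3 : a k * b k * X ≤ a k * Z := by
      calc a k * b k * X ≤ a k * 1 * X := by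
            apply mul_le_mul_of_nonneg_right _ hX0
            exact mul_le_mul_of_nonneg_left (hb1 k) (ha k)
        _ = a k * X := by ring
        _ ≤ a k * Z := mul_le_mul_of_nonneg_left hX (ha k)
    have h4 : 0 ≤ a k * R := mul_nonneg (ha k) hR0
    nlinarith

/-! ### The costs -/

/-- The recursively defined costs. -/
noncomputable def Phi (lam : ℝ) : ℕ → (Vertex → ℕ) → ℝ
  | 0, _ => 0
  | n + 1, ξ => max 0 (∑ i ∈ Finset.range (ξ []), (lam + Phi lam n (sh i ξ)) - psi (D ξ))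

lemma Phi_nonneg (lam : ℝ) (n : ℕ) (ξ : Vertex → ℕ) : 0 ≤ Phi lam n ξ := by
  cases n with
  | zero => exact le_rfl
  | succ n => exact le_max_left _ _

lemma Phi_le_succ (lam : ℝ) (n : ℕ) (ξ : Vertex → ℕ) :
    Phi lam n ξ ≤ Phi lam (n + 1) ξ := by
  induction n generalizing ξ with
  | zero => exact Phi_nonneg lam 1 ξ
  | succ n ih =>
    refine max_le_max le_rfl ?_
    gcongr with i _
    exact ih _

lemma Phi_mono (lam : ℝ) (ξ : Vertex → ℕ) : Monotone fun n => Phi lam n ξ :=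
  monotone_nat_of_le_succ fun n => Phi_le_succ lam n ξ

lemma measurable_Phi (lam : ℝ) (n : ℕ) : Measurable (Phi lam n) := by
  induction n with
  | zero => exact measurable_const
  | succ n ih =>
    have h1 : Measurable fun ξ : Vertex → ℕ =>
        ∑ i ∈ Finset.range (ξ []), (lam + Phi lam n (sh i ξ)) :=
      measurable_children_sum (F := fun ζ => lam + Phi lam n ζ) (measurable_const.add ih)
    exact measurable_const.max (h1.sub (measurable_psi.comp measurable_D))

/-- The pointwise estimate behind the exponential moment recursion. -/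
lemma exp_Phi_le {lam κ : ℝ} (hlam : 0 ≤ lam) (hκ : 0 ≤ κ) (n : ℕ) (ξ : Vertex → ℕ) :
    Real.exp (κ * Phi lam (n + 1) ξ) - 1 ≤
      ∑ i ∈ Finset.range (ξ []), (Real.exp (κ * (lam + Phi lam n (sh i ξ))) - 1) *
        ∏ j ∈ (Finset.range (ξ [])).erase i,
          ((Real.exp (κ * (lam + Phi lam n (sh j ξ))) - 1) + Real.exp (-(κ * psi (G (sh j ξ))))) := by
  set a : ℕ → ℝ := fun i => Real.exp (κ * (lam + Phi lam n (sh i ξ))) - 1 with ha
  set b : ℕ → ℝ := fun i => Real.exp (-(κ * psi (G (sh i ξ)))) with hb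
  have ha0 : ∀ i, 0 ≤ a i := by
    intro i
    simp only [ha]
    have : (1 : ℝ) ≤ Real.exp (κ * (lam + Phi lam n (sh i ξ))) :=
      Real.one_le_exp (mul_nonneg hκ (add_nonneg hlam (Phi_nonneg _ _ _)))
    linarith
  have hb0 : ∀ i, 0 ≤ b i := fun i => (Real.exp_pos _).le
  have hb1 : ∀ i, b i ≤ 1 := by
    intro i
    simp only [hb]
    rw [Real.exp_le_one_iff]
    have := mul_nonneg hκ (psi_nonneg (G_nonneg (sh i ξ)))
    linarith
  have hR0 : 0 ≤ ∑ i ∈ Finset.range (ξ []), a i *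
      ∏ j ∈ (Finset.range (ξ [])).erase i, (a j + b j) :=
    Finset.sum_nonneg fun i _ => mul_nonneg (ha0 i)
      (Finset.prod_nonneg fun j _ => by linarith [ha0 j, hb0 j])
  have hmain := prod_sub_prod_le (Finset.range (ξ [])) ha0 hb0 hb1
  show Real.exp (κ * max 0 (∑ i ∈ Finset.range (ξ []), (lam + Phi lam n (sh i ξ)) - psi (D ξ))) - 1
    ≤ ∑ i ∈ Finset.range (ξ []), a i * ∏ j ∈ (Finset.range (ξ [])).erase i, (a j + b j)
  rcases le_total (∑ i ∈ Finset.range (ξ []), (lam + Phi lam n (sh i ξ)) - psi (D ξ)) 0 with h | h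
  · rw [max_eq_left h, mul_zero, Real.exp_zero, sub_self]
    exact hR0
  · rw [max_eq_right h]
    have hpsi : ∑ i ∈ Finset.range (ξ []), psi (G (sh i ξ)) ≤ psi (D ξ) :=
      psi_sum _ fun i => G_nonneg (sh i ξ)
    have h1 : Real.exp (κ * (∑ i ∈ Finset.range (ξ []), (lam + Phi lam n (sh i ξ)) - psi (D ξ))) ≤
        ∏ i ∈ Finset.range (ξ []), ((1 + a i) * b i) := by
      have h2 : ∏ i ∈ Finset.range (ξ []), ((1 + a i) * b i) =
          Real.exp (κ * (∑ i ∈ Finset.range (ξ []), (lam + Phi lam n (sh i ξ)) -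
            ∑ i ∈ Finset.range (ξ []), psi (G (sh i ξ)))) := by
        rw [← Finset.sum_sub_distrib, Finset.mul_sum, Real.exp_sum]
        refine Finset.prod_congr rfl fun i _ => ?_
        simp only [ha, hb]
        rw [add_sub_cancel, ← Real.exp_add]
        congr 1; ring
      rw [h2]
      apply Real.exp_le_exp.2
      apply mul_le_mul_of_nonneg_left _ hκ
      linarith
    have h3 : ∏ i ∈ Finset.range (ξ []), b i ≤ 1 := Finset.prod_le_one (fun i _ => hb0 i)
      fun i _ => hb1 i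
    linarith

end Pool.Agent.Helper97.Frog
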