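import Mathlib

/-!
# The frog model on Galton-Watson trees: definitions

Trees are encoded in the Ulam-Harris way.  A vertex is a finite word of natural numbers, the empty
word `[]` is the root and the children of `v` are the words `v ++ [i]`.  A tree is given by a
function `ξ` (numbers of children): the vertex `v` of the tree has exactly the children
`v ++ [0], ..., v ++ [ξ v - 1]`.
-/

open MeasureTheory ProbabilityTheory Set
open scoped ENNReal NNReal

namespace Pool.Agent.Helper97.Frog

/-- Vertices: finite words of natural numbers. -/
abbrev Vertex := List ℕ

instance instMeasurableSpaceVertex : MeasurableSpace Vertex := ⊤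

instance instDiscreteMeasurableSpaceVertex : DiscreteMeasurableSpace Vertex := ⟨fun _ => trivial⟩

/-- `v` is a vertex of the tree with numbers of children `ξ`: whenever `u ++ [i]` is a prefix of
`v`, the vertex `u` has an `i`-th child, i.e. `i < ξ u`. -/
def InTree (ξ : Vertex → ℕ) (v : Vertex) : Prop :=
  ∀ (u : Vertex) (i : ℕ), u ++ [i] <+: v → i < ξ u

/-- The law of the Galton-Watson tree with offspring distribution `p`: the numbers of children
`ξ v` are independent with law `p`. -/
noncomputable def galtonWatson (p : Measure ℕ) : Measure (Vertex → ℕ) :=
  Measure.infinitePi fun _ : Vertex => p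

/-- Non-extinction: the tree is infinite. -/
def Survives : Set (Vertex → ℕ) := {ξ | {v | InTree ξ v}.Infinite}

/-- The neighbours in the tree of a vertex `v`: its children and, if `v` is not the root, its
parent. -/
def nbrs (ξ : Vertex → ℕ) (v : Vertex) : Finset Vertex :=
  (Finset.range (ξ v)).image (fun i => v ++ [i]) ∪ (if v = [] then ∅ else {v.dropLast})

open Classical in
/-- One step of simple random walk from `v`: a uniformly chosen neighbour (if `v` has no neighbour
at all, the walk stays at `v`; this never happens in an infinite tree). -/
noncomputable def stepLaw (ξ : Vertex → ℕ) (v : Vertex) : Measure Vertex :=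
  if h : (nbrs ξ v).Nonempty then (PMF.uniformOfFinset (nbrs ξ v) h).toMeasure
  else Measure.dirac v

instance instIsProbabilityMeasureStepLaw (ξ : Vertex → ℕ) (v : Vertex) :
    IsProbabilityMeasure (stepLaw ξ v) := by
  unfold stepLaw
  split_ifs <;> infer_instance

/-- The transition kernel of simple random walk on the tree. -/
noncomputable def walkKernel (ξ : Vertex → ℕ) : Kernel Vertex Vertex :=
  Kernel.ofFunOfCountable (stepLaw ξ)

instance instIsMarkovKernelWalkKernel (ξ : Vertex → ℕ) : IsMarkovKernel (walkKernel ξ) :=
  ⟨fun v => instIsProbabilityMeasureStepLaw ξ v⟩

/-- The law of simple random walk on the tree started at `v`, as a measure on the space of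
trajectories `ℕ → Vertex` (given by the Ionescu-Tulcea theorem). -/
noncomputable def walkLaw (ξ : Vertex → ℕ) (v : Vertex) : Measure (ℕ → Vertex) :=
  Kernel.traj (X := fun _ => Vertex)
    (fun n => (walkKernel ξ).comap (fun h : (Π _ : Finset.Iic n, Vertex) =>
      h ⟨n, Finset.mem_Iic.2 le_rfl⟩) (measurable_pi_apply _)) 0 (fun _ => v)

instance instIsProbabilityMeasureWalkLaw (ξ : Vertex → ℕ) (v : Vertex) :
    IsProbabilityMeasure (walkLaw ξ v) := by
  unfold walkLaw; infer_instance

/-- A configuration of the frog model: for each vertex `v` the number `(ω v).1` of particles
sleeping at `v` and the trajectories `(ω v).2 i`, `i = 0, 1, 2, ...`, which the particles of `v`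
follow once they are active. -/
abbrev Config := Vertex → ℕ × (ℕ → ℕ → Vertex)

/-- The law `FM` of the frog model with parameter `lam` on the tree `ξ`: independently over the
vertices `v`, the number of particles at `v` is Poisson with mean `lam`, and the particles of `v`
follow independent simple random walks started at `v`. -/
noncomputable def frogMeasure (lam : ℝ≥0) (ξ : Vertex → ℕ) : Measure Config :=
  Measure.infinitePi fun v => (poissonMeasure lam).prod (Measure.infinitePi fun _ : ℕ => walkLaw ξ v)

/-- The number of particles at `v`: at the root there is exactly one particle (the initially active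
one); elsewhere the number is given by the configuration. -/
def numFrogs (ω : Config) (v : Vertex) : ℕ := if v = [] then 1 else (ω v).1

/-- The activated vertices: the root is activated (it carries the initially active particle), and a
vertex is activated as soon as a particle of an activated vertex visits it. -/
inductive Activated (ω : Config) : Vertex → Prop
  | root : Activated ω []
  | visit {u v : Vertex} {i n : ℕ} (hu : Activated ω u) (hi : i < numFrogs ω u)
      (hn : (ω u).2 i n = v) : Activated ω v

/-- The active particles (`(v, i)` is the `i`-th particle of the vertex `v`) which visit the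
root. -/
def rootVisitors (ω : Config) : Set (Vertex × ℕ) :=
  {q | Activated ω q.1 ∧ q.2 < numFrogs ω q.1 ∧ ∃ n, (ω q.1).2 q.2 n = []}

/-- The frog model with parameter `lam` on the tree `ξ` is transient: almost surely only finitely
many active particles visit the root. -/
def Transient (lam : ℝ≥0) (ξ : Vertex → ℕ) : Prop :=
  ∀ᵐ ω ∂(frogMeasure lam ξ), (rootVisitors ω).Finite

end Pool.Agent.Helper97.Frog
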