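import Pool.Agent.Helper97.Frog.Defs

open MeasureTheory ProbabilityTheory Set
open scoped ENNReal NNReal

namespace Pool.Agent.Helper97.Frog

/-! ### Facts on the step law -/

lemma lintegral_stepLaw {ξ : Vertex → ℕ} {v : Vertex} (h : (nbrs ξ v).Nonempty)
    (F : Vertex → ℝ≥0∞) :
    ∫⁻ y, F y ∂(stepLaw ξ v) = ((nbrs ξ v).card : ℝ≥0∞)⁻¹ * ∑ y ∈ nbrs ξ v, F y := by
  classical
  rw [stepLaw, dif_pos h, lintegral_countable']
  have h1 : ∀ a : Vertex, (PMF.uniformOfFinset (nbrs ξ v) h).toMeasure {a} =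
      if a ∈ nbrs ξ v then ((nbrs ξ v).card : ℝ≥0∞)⁻¹ else 0 := by
    intro a
    rw [PMF.toMeasure_apply_singleton _ _ (MeasurableSet.singleton a), PMF.uniformOfFinset_apply]
    split_ifs <;> rfl
  simp_rw [h1]
  rw [tsum_eq_sum (s := nbrs ξ v), Finset.mul_sum]
  · refine Finset.sum_congr rfl fun y hy => ?_
    rw [if_pos hy, mul_comm]
  · intro y hy
    rw [if_neg hy, mul_zero]

lemma stepLaw_compl_nbrs {ξ : Vertex → ℕ} {v : Vertex} (h : (nbrs ξ v).Nonempty) :
    ∀ᵐ y ∂(stepLaw ξ v), y ∈ nbrs ξ v := by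
  have h1 : ∫⁻ y, (if y ∈ nbrs ξ v then 0 else 1 : ℝ≥0∞) ∂(stepLaw ξ v) = 0 := by
    rw [lintegral_stepLaw h, Finset.sum_eq_zero, mul_zero]
    intro y hy
    rw [if_pos hy]
  rw [lintegral_eq_zero_iff (measurable_of_countable _)] at h1
  filter_upwards [h1] with y hy
  by_contra hn
  simp [hn] at hy

/-! ### Facts on the walk law -/

/-- The kernels used in `walkLaw`. -/
noncomputable abbrev kap (ξ : Vertex → ℕ) (n : ℕ) :
    Kernel (Π _ : Finset.Iic n, Vertex) Vertex :=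
  (walkKernel ξ).comap (fun h : (Π _ : Finset.Iic n, Vertex) =>
      h ⟨n, Finset.mem_Iic.2 le_rfl⟩) (measurable_pi_apply _)

lemma walkLaw_start (ξ : Vertex → ℕ) (v : Vertex) : ∀ᵐ x ∂(walkLaw ξ v), x 0 = v := by
  have h1 : (walkLaw ξ v).map (Preorder.frestrictLe 0) =
      Kernel.partialTraj (X := fun _ => Vertex) (kap ξ) 0 0 (fun _ => v) := by
    unfold walkLaw
    exact Kernel.traj_map_frestrictLe_apply 0 0 _
  rw [Kernel.partialTraj_self, Kernel.id_apply] at h1
  have h2 : ∀ᵐ h ∂((walkLaw ξ v).map (Preorder.frestrictLe (π := fun _ => Vertex) 0)),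
      h ⟨0, Finset.mem_Iic.2 le_rfl⟩ = v := by
    rw [h1, ae_dirac_iff]
    exact (measurable_pi_apply (X := fun _ : Finset.Iic 0 => Vertex)
      ⟨0, Finset.mem_Iic.2 le_rfl⟩) (MeasurableSet.singleton v)
  exact ae_of_ae_map (Preorder.measurable_frestrictLe 0).aemeasurable h2

lemma lintegral_walkLaw_step (ξ : Vertex → ℕ) (v : Vertex) (n : ℕ) (F : Vertex → Vertex → ℝ≥0∞) :
    ∫⁻ x, F (x n) (x (n + 1)) ∂(walkLaw ξ v) =
      ∫⁻ x, (∫⁻ y, F (x n) y ∂(stepLaw ξ (x n))) ∂(walkLaw ξ v) := by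
  have h1 := Kernel.partialTraj_compProd_eq_map_traj (X := fun _ => Vertex) (κ := kap ξ)
    (Nat.zero_le n) (x₀ := fun _ => v)
  have h2 := Kernel.traj_map_frestrictLe_apply (X := fun _ => Vertex) (κ := kap ξ) 0 n
    (fun _ => v)
  have hF : Measurable (Function.uncurry F) := measurable_of_countable _
  have hg : Measurable fun p : (Π _ : Finset.Iic n, Vertex) × Vertex =>
      (p.1 ⟨n, Finset.mem_Iic.2 le_rfl⟩, p.2) :=
    ((measurable_pi_apply (X := fun _ : Finset.Iic n => Vertex)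
      ⟨n, Finset.mem_Iic.2 le_rfl⟩).comp measurable_fst).prodMk measurable_snd
  have hG : Measurable fun p : (Π _ : Finset.Iic n, Vertex) × Vertex =>
      F (p.1 ⟨n, Finset.mem_Iic.2 le_rfl⟩) p.2 := hF.comp hg
  have hI : Measurable fun a : Vertex => ∫⁻ y, F a y ∂(stepLaw ξ a) := measurable_of_countable _
  calc ∫⁻ x, F (x n) (x (n + 1)) ∂(walkLaw ξ v)
      = ∫⁻ p, F (p.1 ⟨n, Finset.mem_Iic.2 le_rfl⟩) p.2
          ∂((walkLaw ξ v).map (fun x ↦ (Preorder.frestrictLe n x, x (n + 1)))) := by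
        rw [lintegral_map hG ((Preorder.measurable_frestrictLe n).prodMk (measurable_pi_apply _))]
        rfl
    _ = ∫⁻ p, F (p.1 ⟨n, Finset.mem_Iic.2 le_rfl⟩) p.2
          ∂((Kernel.partialTraj (X := fun _ => Vertex) (kap ξ) 0 n (fun _ => v)) ⊗ₘ (kap ξ n)) := by
        rw [h1]; rfl
    _ = ∫⁻ h, ∫⁻ y, F (h ⟨n, Finset.mem_Iic.2 le_rfl⟩) y ∂(kap ξ n h)
          ∂(Kernel.partialTraj (X := fun _ => Vertex) (kap ξ) 0 n (fun _ => v)) := by
        rw [Measure.lintegral_compProd hG]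
    _ = ∫⁻ h, (∫⁻ y, F (h ⟨n, Finset.mem_Iic.2 le_rfl⟩) y
          ∂(stepLaw ξ (h ⟨n, Finset.mem_Iic.2 le_rfl⟩)))
          ∂((walkLaw ξ v).map (Preorder.frestrictLe (π := fun _ => Vertex) n)) := by
        rw [← h2]; rfl
    _ = _ := by
        have hI' : Measurable fun h : (Π _ : Finset.Iic n, Vertex) =>
            ∫⁻ y, F (h ⟨n, Finset.mem_Iic.2 le_rfl⟩) y
              ∂(stepLaw ξ (h ⟨n, Finset.mem_Iic.2 le_rfl⟩)) :=
          hI.comp (measurable_pi_apply (X := fun _ : Finset.Iic n => Vertex)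
            ⟨n, Finset.mem_Iic.2 le_rfl⟩)
        rw [lintegral_map hI' (Preorder.measurable_frestrictLe n)]
        rfl

/-! ### Combinatorics of the tree -/

lemma inTree_nil (ξ : Vertex → ℕ) : InTree ξ [] := by
  intro u i h
  simp at h

lemma InTree.of_isPrefix {ξ : Vertex → ℕ} {u v : Vertex} (hv : InTree ξ v) (h : u <+: v) :
    InTree ξ u := fun w i hw => hv w i (hw.trans h)

lemma InTree.child {ξ : Vertex → ℕ} {v : Vertex} (hv : InTree ξ v) {i : ℕ} (hi : i < ξ v) :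
    InTree ξ (v ++ [i]) := by
  intro u j h
  rw [List.prefix_concat_iff] at h
  rcases h with h | h
  · obtain ⟨h1, h2⟩ := List.append_inj' h rfl
    simp only [List.cons.injEq, and_true] at h2
    rw [h1, h2]; exact hi
  · exact hv u j h

lemma InTree.lt {ξ : Vertex → ℕ} {v : Vertex} {i : ℕ} (hv : InTree ξ (v ++ [i])) : i < ξ v :=
  hv v i (List.prefix_refl _)

lemma mem_nbrs {ξ : Vertex → ℕ} {v y : Vertex} :
    y ∈ nbrs ξ v ↔ (∃ i < ξ v, v ++ [i] = y) ∨ (v ≠ [] ∧ y = v.dropLast) := by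
  unfold nbrs
  by_cases hv : v = []
  · simp [hv]
  · rw [if_neg hv]
    simp only [Finset.mem_union, Finset.mem_image, Finset.mem_range,
      Finset.mem_singleton, ne_eq, hv, not_false_eq_true, true_and]

lemma InTree.of_mem_nbrs {ξ : Vertex → ℕ} {v y : Vertex} (hv : InTree ξ v) (hy : y ∈ nbrs ξ v) :
    InTree ξ y := by
  rw [mem_nbrs] at hy
  rcases hy with ⟨i, hi, rfl⟩ | ⟨-, rfl⟩
  · exact hv.child hi
  · exact hv.of_isPrefix (List.dropLast_prefix v)

lemma exists_crossing {ξ : Vertex → ℕ} {x : ℕ → Vertex} (hx : ∀ n, x (n + 1) ∈ nbrs ξ (x n))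
    {u : Vertex} {i : ℕ} (h0 : ¬ (u ++ [i] <+: x 0)) (n : ℕ) (hn : u ++ [i] <+: x n) :
    ∃ m, x m = u ∧ x (m + 1) = u ++ [i] := by
  induction n with
  | zero => exact absurd hn h0
  | succ n ih =>
    by_cases hp : u ++ [i] <+: x n
    · exact ih hp
    · have h1 := hx n
      rw [mem_nbrs] at h1
      rcases h1 with ⟨j, -, hj⟩ | ⟨-, hd⟩
      · rw [← hj, List.prefix_concat_iff] at hn
        rcases hn with hn | hn
        · obtain ⟨h1, h2⟩ := List.append_inj' hn rfl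
          refine ⟨n, h1.symm, ?_⟩
          rw [← hj, ← hn]
        · exact absurd hn hp
      · rw [hd] at hn
        exact absurd (hn.trans (List.dropLast_prefix _)) hp

/-! ### Almost sure properties of the trajectories -/

lemma measurable_pair {β : Type*} [MeasurableSpace β] (F : Vertex → Vertex → β) (n : ℕ) :
    Measurable fun x : ℕ → Vertex => F (x n) (x (n + 1)) := by
  have hm : Measurable (Function.uncurry F) := measurable_of_countable _
  have hp : Measurable fun x : ℕ → Vertex => (x n, x (n + 1)) :=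
    (measurable_pi_apply n).prodMk (measurable_pi_apply (n + 1))
  exact hm.comp hp

lemma walk_ae {ξ : Vertex → ℕ} (hne : ∀ v, InTree ξ v → (nbrs ξ v).Nonempty) {v : Vertex}
    (hv : InTree ξ v) : ∀ᵐ x ∂(walkLaw ξ v), x 0 = v ∧ (∀ n, InTree ξ (x n)) ∧
      ∀ n, x (n + 1) ∈ nbrs ξ (x n) := by
  classical
  have h1 : ∀ n : ℕ, ∀ᵐ x ∂(walkLaw ξ v), InTree ξ (x n) → x (n + 1) ∈ nbrs ξ (x n) := by
    intro n
    have h2 := lintegral_walkLaw_step ξ v n
      (fun a y => if InTree ξ a ∧ y ∉ nbrs ξ a then (1 : ℝ≥0∞) else 0)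
    have h3 : ∀ a : Vertex, ∫⁻ y, (if InTree ξ a ∧ y ∉ nbrs ξ a then (1 : ℝ≥0∞) else 0)
        ∂(stepLaw ξ a) = 0 := by
      intro a
      rw [lintegral_eq_zero_iff (measurable_of_countable _)]
      by_cases ha : InTree ξ a
      · filter_upwards [stepLaw_compl_nbrs (hne a ha)] with y hy
        simp [hy]
      · refine Filter.Eventually.of_forall fun y => ?_
        simp [ha]
    simp_rw [h3] at h2
    rw [lintegral_zero, lintegral_eq_zero_iff] at h2
    · filter_upwards [h2] with x hx ht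
      by_contra hn
      simp [ht, hn] at hx
    · exact measurable_pair (fun a y : Vertex =>
          if InTree ξ a ∧ y ∉ nbrs ξ a then (1 : ℝ≥0∞) else 0) n
  rw [← ae_all_iff] at h1
  filter_upwards [h1, walkLaw_start ξ v] with x hx h0
  have ht : ∀ n, InTree ξ (x n) := by
    intro n
    induction n with
    | zero => rw [h0]; exact hv
    | succ n ih => exact ih.of_mem_nbrs (hx n ih)
  exact ⟨h0, ht, fun n => hx n (ht n)⟩

/-! ### The supermartingale bound -/

lemma lintegral_cost_le {ξ : Vertex → ℕ} (hne : ∀ v, InTree ξ v → (nbrs ξ v).Nonempty)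
    (cost : Vertex → Vertex → ℝ≥0∞) (h : Vertex → ℝ≥0∞)
    (hstep : ∀ x, InTree ξ x → ∑ y ∈ nbrs ξ x, (cost x y + h y) ≤ (nbrs ξ x).card * h x)
    {v : Vertex} (hv : InTree ξ v) :
    ∫⁻ x, ∑' n, cost (x n) (x (n + 1)) ∂(walkLaw ξ v) ≤ h v := by
  have hmc : ∀ n, Measurable fun x : ℕ → Vertex => cost (x n) (x (n + 1)) :=
    measurable_pair cost
  have hmh : ∀ n, Measurable fun x : ℕ → Vertex => h (x n) := fun n =>
    (measurable_of_countable h).comp (measurable_pi_apply n)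
  have hstep' : ∀ a, InTree ξ a → ∫⁻ y, (cost a y + h y) ∂(stepLaw ξ a) ≤ h a := by
    intro a ha
    rw [lintegral_stepLaw (hne a ha)]
    have hc0 : ((nbrs ξ a).card : ℝ≥0∞) ≠ 0 := by
      simpa using (hne a ha).ne_empty
    have hct : ((nbrs ξ a).card : ℝ≥0∞) ≠ ∞ := ENNReal.natCast_ne_top _
    calc ((nbrs ξ a).card : ℝ≥0∞)⁻¹ * ∑ y ∈ nbrs ξ a, (cost a y + h y)
        ≤ ((nbrs ξ a).card : ℝ≥0∞)⁻¹ * ((nbrs ξ a).card * h a) := mul_le_mul_right (hstep a ha) _
      _ = h a := by rw [← mul_assoc, ENNReal.inv_mul_cancel hc0 hct, one_mul]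
  have hpath := walk_ae hne hv
  have key : ∀ N : ℕ, ∑ n ∈ Finset.range N, ∫⁻ x, cost (x n) (x (n + 1)) ∂(walkLaw ξ v) +
      ∫⁻ x, h (x N) ∂(walkLaw ξ v) ≤ h v := by
    intro N
    induction N with
    | zero =>
      rw [Finset.sum_range_zero, zero_add]
      have : ∫⁻ x, h (x 0) ∂(walkLaw ξ v) = ∫⁻ _, h v ∂(walkLaw ξ v) := by
        apply lintegral_congr_ae
        filter_upwards [hpath] with x hx
        rw [hx.1]
      rw [this, lintegral_const, measure_univ, mul_one]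
    | succ N ih =>
      refine le_trans ?_ ih
      rw [Finset.sum_range_succ, add_assoc]
      gcongr
      rw [← lintegral_add_left (hmc N)]
      rw [lintegral_walkLaw_step ξ v N (fun a y => cost a y + h y)]
      apply lintegral_mono_ae
      filter_upwards [hpath] with x hx
      exact hstep' _ (hx.2.1 N)
  rw [lintegral_tsum fun n => (hmc n).aemeasurable]
  refine ENNReal.tsum_le_of_sum_range_le fun N => ?_
  exact le_trans le_self_add (key N)

end Pool.Agent.Helper97.Frog
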